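import Pool.Agent.Lib.MP_de5887_an.Ex.Step

set_option autoImplicit false

open Finset
open scoped BigOperators

namespace Pool.Agent.Lib.MP_de5887_an.Ex

/-- The logarithmic weights. -/
noncomputable def ell (K : ℕ) (L γ m0 m : ℝ) (k : ℕ) : ℝ :=
  -Real.log (k * (k - 1)) - L * (1 / K - 1 / k) - γ * Real.log (1 + m / (m0 * k))

lemma ell_nonpos {K k : ℕ} (hK : 2 ≤ K) (hk : K ≤ k) {L γ m0 m : ℝ} (hL : 0 ≤ L) (hγ : 0 ≤ γ)
    (hm0 : 0 < m0) (hm : 0 ≤ m) : ell K L γ m0 m k ≤ -(γ * Real.log (1 + m / (m0 * k))) ∧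
      ell K L γ m0 m k ≤ 0 := by
  have h1 : (2 : ℝ) ≤ K := by exact_mod_cast hK
  have h2 : (K : ℝ) ≤ k := by exact_mod_cast hk
  have h3 : 0 ≤ Real.log (k * (k - 1)) := Real.log_nonneg (by nlinarith)
  have h4 : 0 ≤ L * (1 / K - 1 / k) :=
    mul_nonneg hL (sub_nonneg.2 (one_div_le_one_div_of_le (by linarith) h2))
  have h5 : 0 ≤ γ * Real.log (1 + m / (m0 * k)) :=
    mul_nonneg hγ (Real.log_nonneg (le_add_of_nonneg_right (by positivity)))
  unfold ell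
  constructor <;> linarith

lemma ell_W {K k : ℕ} (hK : 2 ≤ K) (hk : K < k) {L γ m0 m : ℝ} (hγ : 0 ≤ γ) (hm0 : 0 < m0)
    (hm : (k : ℝ) ≤ m + 1) :
    (m + 1 - 1) * (k * ell K L γ m0 (m + 1) k) ≤ (m + 1 - k) * (k * ell K L γ m0 m k) +
      k * ((k - 1) * (ell K L γ m0 m (k - 1) + Real.log (kap (k - 1)))) - L := by
  have h1 : (3 : ℝ) ≤ k := by exact_mod_cast (show 3 ≤ k by omega)
  have hk1 : ((k - 1 : ℕ) : ℝ) = k - 1 := by rw [Nat.cast_sub (by omega), Nat.cast_one]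
  have hk0 : (0 : ℝ) < k := by linarith
  have hk2 : (0 : ℝ) < k - 1 := by linarith
  have hk3 : (0 : ℝ) < k - 1 - 1 := by linarith
  have hmm : 0 ≤ m := by linarith
  unfold ell kap
  rw [hk1, sub_add_cancel, Real.log_div hk3.ne' hk0.ne', Real.log_mul hk0.ne' hk2.ne',
    Real.log_mul hk2.ne' hk3.ne']
  set z := 1 + (m + 1) / (m0 * k) with hz
  set x1 := 1 + m / (m0 * k) with hx1
  set x2 := 1 + m / (m0 * (k - 1)) with hx2
  have hz0 : 0 < z := by positivity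
  have t1 := log_tangent (show 0 < x1 by positivity) hz0
  have t2 := log_tangent (show 0 < x2 by positivity) hz0
  have e : (m + 1 - k) * x1 + (k - 1) * x2 = m * z := by
    rw [hz, hx1, hx2]
    field_simp
    ring
  have c : (m + 1 - k) * Real.log x1 + (k - 1) * Real.log x2 ≤ m * Real.log z := by
    have a1 := mul_le_mul_of_nonneg_left t1 (show 0 ≤ m + 1 - k by linarith)
    have a2 := mul_le_mul_of_nonneg_left t2 hk2.le
    refine le_of_mul_le_mul_left ?_ hz0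
    nlinarith
  have c2 := mul_le_mul_of_nonneg_left c (show 0 ≤ γ * k by positivity)
  have e2 : (k : ℝ) * ((k - 1) * (L * (1 / (k - 1)))) = k * L := by field_simp
  have e3 : (k : ℝ) * (L * (1 / k)) = L := by field_simp
  have e4 : m * ((k : ℝ) * (L * (1 / k))) = m * L := by rw [e3]
  have e5 : (k : ℝ) * ((k : ℝ) * (L * (1 / k))) = k * L := by rw [e3]
  nlinarith

variable {ι : Type*} [DecidableEq ι]

lemma sum_erase_powerset (W : Finset ι) (u : Finset ι → ℝ) :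
    ∑ c ∈ W, ∑ t ∈ (W.erase c).powerset, u t = ∑ t ∈ W.powerset, ((W.card : ℝ) - t.card) * u t := by
  rw [sum_comm' (s' := fun t => W \ t) (t' := W.powerset)]
  · refine sum_congr rfl fun t ht => ?_
    have ht' := mem_powerset.1 ht
    rw [sum_const, nsmul_eq_mul, card_sdiff_of_subset ht', Nat.cast_sub (card_le_card ht')]
  · intro c t
    simp only [mem_powerset, subset_erase, mem_sdiff]
    tauto

lemma sum_erase_swap (A : Finset ι) (u : ι → ι → ℝ) :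
    ∑ c ∈ A, ∑ j ∈ A.erase c, u c j = ∑ j ∈ A, ∑ c ∈ A.erase j, u c j := by
  refine sum_comm' fun c j => ?_
  simp only [mem_erase]
  constructor
  · rintro ⟨h1, h2, h3⟩; exact ⟨⟨Ne.symm h2, h1⟩, h3⟩
  · rintro ⟨⟨h1, h2⟩, h3⟩; exact ⟨h2, Ne.symm h1, h3⟩

lemma sum_Rw_erase (ρ : ℕ → ℝ) {A : Finset ι} (a : Finset ι → ℝ) {j : ι} (hj : j ∈ A) :
    ∑ c ∈ A.erase j, Rw ρ (A.erase c) a j = Rw (fun i => ((A.card : ℝ) - 1 - i) * ρ i) A a j := by
  unfold Rw
  rw [sum_congr rfl fun c _ => by rw [erase_right_comm], sum_erase_powerset, card_erase_of_mem hj,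
    Nat.cast_sub (card_pos.2 ⟨j, hj⟩), Nat.cast_one]
  exact sum_congr rfl fun t _ => by ring

lemma Rw_erase_le {ρ : ℕ → ℝ} (hρ : ∀ i, 0 ≤ ρ i) (A : Finset ι) (a : Finset ι → ℝ) (c j : ι) :
    Rw ρ (A.erase c) a j ≤ Rw ρ A a j :=
  sum_le_sum_of_subset_of_nonneg (powerset_mono.2 (erase_subset_erase j (erase_subset c A)))
    fun _ _ _ => mul_nonneg (hρ _) (sq_nonneg _)

lemma Nw_sq_le {ρ ρ' : ℕ → ℝ} {C : ℝ} (hC : 0 ≤ C) (A : Finset ι) (a : Finset ι → ℝ)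
    (h : ∀ j ∈ A, ∀ t ⊆ A.erase j, a (insert j t) ≠ 0 → ρ t.card ≤ C * ρ' t.card) :
    Nw ρ A a ^ 2 ≤ C * Nw ρ' A a ^ 2 := by
  have h1 : Nw ρ A a ≤ √C * Nw ρ' A a := by
    unfold Nw
    rw [mul_sum]
    refine sum_le_sum fun j hj => ?_
    rw [← Real.sqrt_mul hC]
    refine Real.sqrt_le_sqrt ?_
    unfold Rw
    rw [mul_sum]
    refine sum_le_sum fun t ht => ?_
    by_cases h0 : a (insert j t) = 0
    · simp [h0]
    · rw [← mul_assoc]
      exact mul_le_mul_of_nonneg_right (h j hj t (mem_powerset.1 ht) h0) (sq_nonneg _)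
  calc _ ≤ (√C * Nw ρ' A a) ^ 2 := pow_le_pow_left₀ (Nw_nonneg _ _ _) h1 2
    _ = _ := by rw [mul_pow, Real.sq_sqrt hC]

lemma Nw_le_sum {α : Type*} {ρ : ℕ → ℝ} (hρ : ∀ i, 0 ≤ ρ i) (B : Finset ι) (a : Finset ι → ℝ)
    (C : Finset α) (x : α → Finset ι → ℝ) {μ : ℝ} (hμ : 0 ≤ μ)
    (h : ∀ S ⊆ B, μ * |a S| ≤ |∑ c ∈ C, x c S|) : μ * Nw ρ B a ≤ ∑ c ∈ C, Nw ρ B (x c) := by
  unfold Nw
  rw [sum_comm, mul_sum]
  refine sum_le_sum fun j hj => ?_
  have h1 := mink C (B.erase j).powerset fun c t => √(ρ t.card) * x c (insert j t)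
  simp only [mul_pow, Real.sq_sqrt (hρ _), ← mul_sum] at h1
  refine le_trans ?_ h1
  rw [← Real.sqrt_sq hμ, ← Real.sqrt_mul (sq_nonneg _)]
  refine Real.sqrt_le_sqrt ?_
  unfold Rw
  rw [mul_sum]
  refine sum_le_sum fun t ht => ?_
  rw [mul_left_comm]
  refine mul_le_mul_of_nonneg_left ?_ (hρ _)
  have h2 := h (insert j t) (insert_subset hj ((mem_powerset.1 ht).trans (erase_subset j B)))
  rw [← sq_abs (a _), ← sq_abs (∑ c ∈ C, _), ← mul_pow]
  exact pow_le_pow_left₀ (by positivity) h2 2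

lemma Nw_sq_pm {ρ : ℕ → ℝ} (hρ : ∀ i, 0 ≤ ρ i) (B : Finset ι) (a b : Finset ι → ℝ) :
    Nw ρ B a ^ 2 ≤ (Nw ρ B (fun s => a s + 1 * b s) ^ 2 +
      Nw ρ B (fun s => a s + (-1) * b s) ^ 2) / 2 := by
  have h := Nw_le_sum hρ B a (univ : Finset Bool)
    (fun c s => a s + (if c then 1 else -1) * b s) (μ := 2) (by norm_num) fun S _ => by
      simp only [Fintype.sum_bool, if_true, Bool.false_eq_true, if_false]
      rw [show a S + 1 * b S + (a S + -1 * b S) = 2 * a S by ring, abs_mul, abs_two]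
  simp only [Fintype.sum_bool, if_true, Bool.false_eq_true, if_false] at h
  have h0 := Nw_nonneg ρ B a
  nlinarith [sq_nonneg (Nw ρ B (fun s => a s + 1 * b s) - Nw ρ B (fun s => a s + (-1) * b s))]

lemma Nw_ind_le (K : ℕ) (A : Finset ι) (a : Finset ι → ℝ) :
    ((A.card : ℝ) - 1 - K) * Nw (ind K) A a ≤ ∑ c ∈ A, Nw (ind K) (A.erase c) a := by
  unfold Nw
  rw [sum_erase_swap, mul_sum]
  refine sum_le_sum fun j hj => ?_
  have h1 := sum_Rw_erase (ind K) a hj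
  have h2 : Rw (fun i => ((A.card : ℝ) - 1 - i) * ind K i) A a j =
      ((A.card : ℝ) - 1 - K) * Rw (ind K) A a j := by
    unfold Rw
    rw [mul_sum]
    refine sum_congr rfl fun t _ => ?_
    by_cases h : t.card = K
    · simp only [ind, h, if_true]; ring
    · simp [ind, h]
  rw [h2] at h1
  rcases (Rw_nonneg (ind_nonneg K) A a j).eq_or_lt with h0 | h0
  · rw [← h0, Real.sqrt_zero, mul_zero]
    exact sum_nonneg fun _ _ => Real.sqrt_nonneg _
  · have h3 := Real.sqrt_pos.2 h0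
    refine le_of_mul_le_mul_right ?_ h3
    rw [mul_assoc, Real.mul_self_sqrt h0.le, ← h1, sum_mul]
    refine sum_le_sum fun c _ => ?_
    have h4 := Rw_nonneg (ind_nonneg K) (A.erase c) a j
    calc _ = √(Rw (ind K) (A.erase c) a j) * √(Rw (ind K) (A.erase c) a j) :=
          (Real.mul_self_sqrt h4).symm
      _ ≤ _ := mul_le_mul_of_nonneg_left
          (Real.sqrt_le_sqrt (Rw_erase_le (ind_nonneg K) A a c j)) (Real.sqrt_nonneg _)

lemma sum_Nw_sq_le {ρ : ℕ → ℝ} (hρ : ∀ i, 0 ≤ ρ i) (A : Finset ι) (a : Finset ι → ℝ) :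
    ∑ c ∈ A, Nw ρ (A.erase c) a ^ 2 ≤ Nw (fun i => ((A.card : ℝ) - 1 - i) * ρ i) A a ^ 2 := by
  have h1 := mink A A fun j c => if j = c then 0 else √(Rw ρ (A.erase c) a j)
  have e1 : ∀ c ∈ A, (∑ j ∈ A, if j = c then 0 else √(Rw ρ (A.erase c) a j)) ^ 2 =
      Nw ρ (A.erase c) a ^ 2 := by
    intro c _
    unfold Nw
    rw [← filter_ne', sum_filter]
    simp only [ne_eq, ite_not, filter_ne']
  have e2 : ∀ j ∈ A, √(∑ c ∈ A, (if j = c then 0 else √(Rw ρ (A.erase c) a j)) ^ 2) =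
      √(Rw (fun i => ((A.card : ℝ) - 1 - i) * ρ i) A a j) := by
    intro j hj
    rw [← sum_Rw_erase ρ a hj, ← filter_ne, sum_filter]
    congr 1
    refine sum_congr rfl fun c _ => ?_
    by_cases h : j = c
    · simp [h]
    · simp [h, Real.sq_sqrt (Rw_nonneg hρ _ _ _)]
  rw [sum_congr rfl e1, sum_congr rfl e2] at h1
  exact (Real.sqrt_le_left (Nw_nonneg _ _ _)).1 h1

variable [Fintype ι]

/-- The sets of size `m`. -/
abbrev PP (ι : Type*) [Fintype ι] (m : ℕ) : Finset (Finset ι) := (univ : Finset ι).powersetCard m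

omit [DecidableEq ι] in
lemma PP_card {m : ℕ} {A : Finset ι} (hA : A ∈ PP ι m) : A.card = m := (mem_powersetCard.1 hA).2

omit [DecidableEq ι] in
lemma PP_nonempty {m : ℕ} (hm : m ≤ Fintype.card ι) : (PP ι m).Nonempty :=
  powersetCard_nonempty.2 hm

lemma EE_swap {m : ℕ} (hm : m < Fintype.card ι) (ψ : Finset ι → ι → ℝ) :
    ((Fintype.card ι : ℝ) - m) * 𝔼 A ∈ PP ι (m + 1), ∑ c ∈ A, ψ (A.erase c) c =
      ((m : ℝ) + 1) * 𝔼 B ∈ PP ι m, ∑ c ∈ Bᶜ, ψ B c := by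
  have e : ∑ A ∈ PP ι (m + 1), ∑ c ∈ A, ψ (A.erase c) c = ∑ B ∈ PP ι m, ∑ c ∈ Bᶜ, ψ B c := by
    rw [sum_sigma', sum_sigma']
    refine sum_nbij' (fun p => ⟨p.1.erase p.2, p.2⟩) (fun p => ⟨insert p.2 p.1, p.2⟩) ?_ ?_ ?_ ?_ ?_
    · rintro ⟨A, c⟩ hp
      simp only [mem_sigma, mem_powersetCard, subset_univ, true_and, mem_compl] at hp ⊢
      exact ⟨by rw [card_erase_of_mem hp.2, hp.1]; rfl, notMem_erase c A⟩
    · rintro ⟨B, c⟩ hp
      simp only [mem_sigma, mem_powersetCard, subset_univ, true_and, mem_compl] at hp ⊢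
      exact ⟨by rw [card_insert_of_notMem hp.2, hp.1], mem_insert_self c B⟩
    · rintro ⟨A, c⟩ hp
      simp only [mem_sigma] at hp
      simp only [insert_erase hp.2]
    · rintro ⟨B, c⟩ hp
      simp only [mem_sigma, mem_compl] at hp
      simp only [erase_insert hp.2]
    · rintro ⟨A, c⟩ _
      rfl
  rw [expect_eq_sum_div_card, expect_eq_sum_div_card, e, card_powersetCard, card_powersetCard,
    card_univ]
  have h1 : (0 : ℝ) < (Fintype.card ι).choose (m + 1) := by exact_mod_cast Nat.choose_pos hm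
  have h2 : (0 : ℝ) < (Fintype.card ι).choose m := by exact_mod_cast Nat.choose_pos hm.le
  have h3 : ((Fintype.card ι).choose (m + 1) : ℝ) * (m + 1) =
      (Fintype.card ι).choose m * ((Fintype.card ι : ℝ) - m) := by
    have := Nat.choose_succ_right_eq (Fintype.card ι) m
    rw [← Nat.cast_sub hm.le]
    exact_mod_cast this
  field_simp
  linear_combination (-∑ B ∈ PP ι m, ∑ c ∈ Bᶜ, ψ B c) * h3

lemma EE_down {m : ℕ} (hm : m < Fintype.card ι) (φ : Finset ι → ℝ) :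
    𝔼 A ∈ PP ι (m + 1), ∑ c ∈ A, φ (A.erase c) = ((m : ℝ) + 1) * 𝔼 B ∈ PP ι m, φ B := by
  have h := EE_swap hm fun B _ => φ B
  have h1 : (0 : ℝ) < (Fintype.card ι : ℝ) - m := sub_pos.2 (by exact_mod_cast hm)
  have e : 𝔼 B ∈ PP ι m, ∑ c ∈ Bᶜ, φ B = ((Fintype.card ι : ℝ) - m) * 𝔼 B ∈ PP ι m, φ B := by
    rw [mul_expect]
    refine expect_congr rfl fun B hB => ?_
    rw [sum_const, nsmul_eq_mul, card_compl, PP_card hB, Nat.cast_sub hm.le]
  rw [e] at h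
  refine mul_left_cancel₀ h1.ne' (h.trans (by ring))

omit [DecidableEq ι] in
lemma EE_top (φ : Finset ι → ℝ) : 𝔼 A ∈ PP ι (Fintype.card ι), φ A = φ univ := by
  unfold PP
  rw [← card_univ, powersetCard_self]
  simp

end Pool.Agent.Lib.MP_de5887_an.Ex
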