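import Pool.Agent.Lib.MP_de5887_an.Ex.Flow

set_option autoImplicit false

open Finset
open scoped BigOperators

namespace Pool.Agent.Lib.MP_de5887_an.Ex

variable {ι : Type*} [DecidableEq ι] [Fintype ι]

lemma sum_gg_insert {d : ℕ} {f : Finset ι → ℝ} (hf : ∀ S, S.card ≠ d → f S = 0) {B S : Finset ι}
    (hS : S ⊆ B) (y : ι → Bool) :
    ∑ c ∈ Bᶜ, gg f (insert c B) y S = ((Bᶜ.card : ℝ) - d + S.card) * gg f B y S := by
  unfold gg ev mev
  simp only [compl_insert]
  rw [sum_erase_powerset, mul_sum]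
  refine sum_congr rfl fun t ht => ?_
  by_cases h : (S ∪ t).card = d
  · rw [card_union_of_disjoint (disjoint_compl_right.mono hS (mem_powerset.1 ht))] at h
    rw [← h]
    push_cast
    ring
  · simp [hf _ h]

lemma DD_up {d m : ℕ} {f : Finset ι → ℝ} (hf : ∀ S, S.card ≠ d → f S = 0)
    (hm : m < Fintype.card ι) (hd : m + d ≤ Fintype.card ι) {r : ℝ} (hr : 0 ≤ r) :
    ((Fintype.card ι : ℝ) - m - d) ^ 2 * DD (fun i => r ^ i) f m ≤
      ((Fintype.card ι : ℝ) - m) ^ 2 * DD (fun i => (r * m / (m + 1)) ^ i) f (m + 1) := by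
  have hd' : (m : ℝ) + d ≤ Fintype.card ι := by exact_mod_cast hd
  have hm' : (m : ℝ) < Fintype.card ι := by exact_mod_cast hm
  have hρ : ∀ i : ℕ, 0 ≤ r ^ i := fun i => pow_nonneg hr i
  have h1 : ((Fintype.card ι : ℝ) - m - d) ^ 2 * DD (fun i => r ^ i) f m ≤
      ((Fintype.card ι : ℝ) - m) * 𝔼 B ∈ PP ι m, ∑ c ∈ Bᶜ,
        𝔼 y, Nw (fun i => r ^ i) B (gg f (insert c B) y) ^ 2 := by
    unfold DD
    rw [mul_expect, mul_expect]
    refine expect_le_expect fun B hB => ?_
    rw [← expect_sum_comm, mul_expect, mul_expect]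
    refine expect_le_expect fun y _ => ?_
    have hc : (Bᶜ.card : ℝ) = Fintype.card ι - m := by
      rw [card_compl, PP_card hB, Nat.cast_sub hm.le]
    have h2 := Nw_le_sum hρ B (gg f B y) Bᶜ (fun c => gg f (insert c B) y)
      (μ := (Fintype.card ι : ℝ) - m - d) (by linarith) fun S hS => by
        rw [sum_gg_insert hf hS, abs_mul, hc]
        refine mul_le_mul_of_nonneg_right (le_trans ?_ (le_abs_self _)) (abs_nonneg _)
        linarith [Nat.cast_nonneg (α := ℝ) S.card]
    have h3 := sq_sum_le_card_mul_sum_sq (s := Bᶜ)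
      (f := fun c => Nw (fun i => r ^ i) B (gg f (insert c B) y))
    rw [hc] at h3
    rw [← mul_pow]
    exact (pow_le_pow_left₀ (mul_nonneg (by linarith) (Nw_nonneg _ _ _)) h2 2).trans h3
  have h2 := EE_swap hm fun B c => 𝔼 y, Nw (fun i => r ^ i) B (gg f (insert c B) y) ^ 2
  have h3 : 𝔼 A ∈ PP ι (m + 1), ∑ c ∈ A,
      𝔼 y, Nw (fun i => r ^ i) (A.erase c) (gg f (insert c (A.erase c)) y) ^ 2 ≤
      ((m : ℝ) + 1) * DD (fun i => (r * m / (m + 1)) ^ i) f (m + 1) := by
    unfold DD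
    rw [mul_expect]
    refine expect_le_expect fun A hA => ?_
    rw [sum_congr rfl fun c hc => by rw [insert_erase hc], ← expect_sum_comm, mul_expect]
    refine expect_le_expect fun y _ => (sum_Nw_sq_le hρ A _).trans
      (Nw_sq_le (by positivity) A _ fun j _ t _ _ => ?_)
    rw [PP_card hA]
    have h4 := one_add_mul_le_pow (a := -(1 / ((m : ℝ) + 1))) (by
      have : 1 / ((m : ℝ) + 1) ≤ 1 := by
        rw [div_le_one (by positivity)]; linarith [Nat.cast_nonneg (α := ℝ) m]
      linarith) t.card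
    have e1 : 1 + -(1 / ((m : ℝ) + 1)) = m / (m + 1) := by field_simp; ring
    rw [e1] at h4
    have h5 := mul_le_mul_of_nonneg_left h4 (show 0 ≤ (m : ℝ) + 1 by positivity)
    have e2 : ((m : ℝ) + 1) * (1 + t.card * -(1 / ((m : ℝ) + 1))) = m + 1 - t.card := by
      field_simp; ring
    rw [e2] at h5
    rw [mul_div_assoc, mul_pow, mul_left_comm, mul_comm]
    push_cast
    exact mul_le_mul_of_nonneg_left (by linarith) (hρ _)
  have h4 := mul_le_mul_of_nonneg_left h3 (show 0 ≤ (Fintype.card ι : ℝ) - m by linarith)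
  rw [h2, mul_left_comm] at h4
  have h5 := le_of_mul_le_mul_left h4 (by positivity)
  have h6 := mul_le_mul_of_nonneg_left h5 (show 0 ≤ (Fintype.card ι : ℝ) - m by linarith)
  linarith

lemma DD_up_iter {d m m' : ℕ} {f : Finset ι → ℝ} (hf : ∀ S, S.card ≠ d → f S = 0) (hm1 : 1 ≤ m)
    (hmm : m ≤ m') (hm : 2 * m' ≤ Fintype.card ι) (hd : 4 * d ≤ Fintype.card ι) :
    DD (fun _ => 1) f m ≤ Real.exp (8 * d * m' / Fintype.card ι) *
      DD (fun i => ((m : ℝ) / m') ^ i) f m' := by
  have hm0 : (0 : ℝ) < m := by exact_mod_cast hm1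
  induction m', hmm using Nat.le_induction with
  | base =>
    simp only [div_self hm0.ne', one_pow]
    exact le_mul_of_one_le_left (DD_nonneg _ _ _) (Real.one_le_exp (by positivity))
  | succ k hk ih =>
    refine (ih (by omega)).trans ?_
    have hk' : (m : ℝ) ≤ k := by exact_mod_cast hk
    have hk0 : (0 : ℝ) < k := by linarith
    have h1 := DD_up (m := k) hf (by omega) (by omega) (r := (m : ℝ) / k) (by positivity)
    rw [div_mul_cancel₀ _ hk0.ne'] at h1
    set n : ℝ := (Fintype.card ι : ℝ) with hn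
    have hn1 : 2 * ((k : ℝ) + 1) ≤ n := by rw [hn]; exact_mod_cast hm
    have hn2 : 4 * (d : ℝ) ≤ n := by rw [hn]; exact_mod_cast hd
    have hd0 : (0 : ℝ) ≤ d := by positivity
    have hn0 : 0 < n := by linarith
    have h2 : n - k ≤ Real.exp (4 * d / n) * (n - k - d) := by
      refine le_trans ?_ (mul_le_mul_of_nonneg_right (Real.add_one_le_exp _) (by linarith))
      have : d ≤ 4 * d / n * (n - k - d) := by
        rw [div_mul_eq_mul_div, le_div_iff₀ hn0]
        nlinarith
      linarith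
    have h3 := pow_le_pow_left₀ (by linarith) h2 2
    rw [mul_pow, ← Real.exp_nat_mul] at h3
    have h4 := h1.trans (mul_le_mul_of_nonneg_right h3 (DD_nonneg _ _ _))
    rw [mul_right_comm, mul_comm] at h4
    have h5 := le_of_mul_le_mul_right h4 (pow_pos (by linarith) 2)
    refine (mul_le_mul_of_nonneg_left h5 (Real.exp_pos _).le).trans (le_of_eq ?_)
    rw [← mul_assoc, ← Real.exp_add]
    push_cast
    congr 2
    ring

lemma EE_sq_le (u : ι → ℝ) (h0 : ∀ j, 0 ≤ u j) (h1 : ∀ j, u j ≤ 1) {I : ℝ} (hI : ∑ j, u j ≤ I)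
    {m : ℕ} (hm1 : 1 ≤ m) (hm : m ≤ Fintype.card ι) :
    𝔼 A ∈ PP ι m, (∑ j ∈ A, u j) ^ 2 ≤ 1 + 2 * (m * I / Fintype.card ι) ^ 2 := by
  set φ : Finset ι → ℝ := fun A => (∑ j ∈ A, u j) ^ 2 - ∑ j ∈ A, u j with hφ
  have hn : (0 : ℝ) < Fintype.card ι := by exact_mod_cast (show 0 < Fintype.card ι by omega)
  have key : ∀ k m : ℕ, m + k = Fintype.card ι → 1 ≤ m →
      𝔼 A ∈ PP ι m, φ A ≤ (m * I / Fintype.card ι) ^ 2 := by
    intro k
    induction k with
    | zero =>
      intro m hm _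
      rw [add_zero] at hm
      rw [hm, EE_top, mul_div_cancel_left₀ _ hn.ne']
      have h2 : 0 ≤ ∑ j, u j := sum_nonneg fun j _ => h0 j
      have h3 := pow_le_pow_left₀ h2 hI 2
      simp only [hφ]
      linarith
    | succ k ih =>
      intro m hm hm1
      have h2 := ih (m + 1) (by omega) (by omega)
      have h3 := EE_down (ι := ι) (m := m) (by omega) φ
      have hm' : (1 : ℝ) ≤ m := by exact_mod_cast hm1
      have h4 : 𝔼 A ∈ PP ι (m + 1), ∑ c ∈ A, φ (A.erase c) ≤
          ((m : ℝ) - 1) * 𝔼 A ∈ PP ι (m + 1), φ A := by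
        rw [mul_expect]
        refine expect_le_expect fun A hA => ?_
        simp only [hφ]
        set s := ∑ j ∈ A, u j with hs
        have h5 : ∀ c ∈ A, (∑ j ∈ A.erase c, u j) ^ 2 - ∑ j ∈ A.erase c, u j ≤
            (s ^ 2 - s) + (2 - 2 * s) * u c := by
          intro c hc
          rw [sum_erase_eq_sub hc, ← hs]
          nlinarith [h0 c, h1 c]
        refine (sum_le_sum h5).trans (le_of_eq ?_)
        rw [sum_add_distrib, sum_const, ← mul_sum, ← hs, nsmul_eq_mul, PP_card hA]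
        push_cast
        ring
      have h5 := mul_le_mul_of_nonneg_left h2 (show 0 ≤ (m : ℝ) - 1 by linarith)
      refine le_of_mul_le_mul_left ((h3.symm.le.trans (h4.trans h5)).trans ?_) (by positivity)
      push_cast
      rw [mul_div_assoc, mul_div_assoc, mul_pow, mul_pow]
      nlinarith [sq_nonneg (I / Fintype.card ι), mul_nonneg (sq_nonneg (I / Fintype.card ι))
        (show 0 ≤ (m : ℝ) + 1 by positivity)]
  have h2 := key (Fintype.card ι - m) m (by omega) hm1
  have h3 : 𝔼 A ∈ PP ι m, (∑ j ∈ A, u j) ^ 2 ≤ 𝔼 A ∈ PP ι m, (1 + 2 * φ A) :=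
    expect_le_expect fun A _ => by
      simp only [hφ]
      nlinarith [sq_nonneg (∑ j ∈ A, u j - 1)]
  rw [expect_add_distrib, expect_const (PP_nonempty hm), ← mul_expect] at h3
  linarith

lemma expect_merge (A : Finset ι) (F : (ι → Bool) → ℝ) :
    𝔼 y : ι → Bool, 𝔼 x : ι → Bool, F (fun i => if i ∈ A then x i else y i) = 𝔼 z, F z := by
  let e : (ι → Bool) × (ι → Bool) ≃ (ι → Bool) × (ι → Bool) :=
    Function.Involutive.toPerm (fun p => (fun i => if i ∈ A then p.2 i else p.1 i,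
      fun i => if i ∈ A then p.1 i else p.2 i)) fun p => by
        ext i <;> by_cases h : i ∈ A <;> simp [h]
  have h := Fintype.expect_equiv e (fun p => F (fun i => if i ∈ A then p.2 i else p.1 i))
    (fun p => F p.1) fun p => rfl
  rw [← expect_product', univ_product_univ, h, ← univ_product_univ,
    expect_product' _ _ fun a _ => F a]
  simp

/-- The discrete derivative. -/
def dj (f : Finset ι → ℝ) (j : ι) (z : ι → Bool) : ℝ :=
  ev (univ.erase j) (fun t => f (insert j t)) z

lemma ev_gg (f : Finset ι → ℝ) {A : Finset ι} {j : ι} (hj : j ∈ A) (x y : ι → Bool) :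
    ev (A.erase j) (fun t => gg f A y (insert j t)) x =
      dj f j (fun i => if i ∈ A then x i else y i) := by
  have h := ev_restrict (A := A.erase j) (B := Aᶜ)
    (disjoint_compl_right.mono_left (erase_subset j A)) (fun t => f (insert j t)) x y
  have e : A.erase j ∪ Aᶜ = univ.erase j := by
    ext i
    by_cases h : i = j
    · simp [h, hj]
    · simp [h, em]
  unfold gg dj
  simp only [insert_union]
  rw [h, e]
  refine mev_congr _ fun i hi => ?_
  simp [ne_of_mem_erase hi]

lemma DD_interp {f : Finset ι → ℝ} {I : ℝ} (h1 : ∀ j z, |dj f j z| ≤ 1)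
    (hI : ∀ z, ∑ j, |dj f j z| ≤ I) {m : ℕ} (hm1 : 1 ≤ m) (hm : m ≤ Fintype.card ι) {r μ : ℝ}
    (hr0 : 0 ≤ r) (hr1 : r ≤ 1) (hμ : 1 ≤ μ) :
    DD (fun i => r ^ i) f m ≤ 2 * μ ^ (4 * r) *
      (1 + 2 * (m * I / Fintype.card ι) ^ 2 + DD (fun _ => 1) f m / μ ^ 2) := by
  have hμ0 : 0 < μ := by linarith
  have h2 : 𝔼 A ∈ PP ι m, 𝔼 z, (∑ j ∈ A, |dj f j z|) ^ 2 ≤
      1 + 2 * (m * I / Fintype.card ι) ^ 2 := by
    rw [expect_comm]
    exact expect_le univ_nonempty fun z _ =>
      EE_sq_le _ (fun j => abs_nonneg _) (fun j => h1 j z) (hI z) hm1 hm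
  refine le_trans ?_ (mul_le_mul_of_nonneg_left (add_le_add_left h2 _) (by positivity))
  unfold DD
  rw [div_eq_mul_inv, expect_mul, ← expect_add_distrib, mul_expect]
  refine expect_le_expect fun A _ => ?_
  rw [← expect_merge A fun z => (∑ j ∈ A, |dj f j z|) ^ 2, expect_mul, ← expect_add_distrib,
    mul_expect]
  refine expect_le_expect fun y _ => ?_
  set U := 𝔼 x : ι → Bool, ∑ j ∈ A, |dj f j (fun i => if i ∈ A then x i else y i)| with hU
  have h3 : U ^ 2 ≤ 𝔼 x : ι → Bool, (∑ j ∈ A, |dj f j (fun i => if i ∈ A then x i else y i)|) ^ 2 := by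
    have := expect_mul_sq_le_sq_mul_sq univ
      (fun x : ι → Bool => ∑ j ∈ A, |dj f j (fun i => if i ∈ A then x i else y i)|) fun _ => 1
    simpa using this
  have h4 : Nw (fun i => r ^ i) A (gg f A y) ≤
      μ ^ (2 * r) * (U + Nw (fun _ => 1) A (gg f A y) / μ) := by
    unfold Nw Rw
    rw [hU, expect_sum_comm, sum_div, ← sum_add_distrib, mul_sum]
    refine sum_le_sum fun j hj => ?_
    have := interp hr0 hr1 hμ (A.erase j) fun t => gg f A y (insert j t)
    simp only [ev_gg f hj] at this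
    simpa only [one_mul] using this
  have h5 := pow_le_pow_left₀ (Nw_nonneg _ _ _) h4 2
  have e : (μ ^ (2 * r)) ^ 2 = μ ^ (4 * r) := by
    rw [← Real.rpow_natCast, ← Real.rpow_mul hμ0.le]; congr 1; push_cast; ring
  rw [mul_pow, e] at h5
  refine h5.trans ?_
  rw [mul_comm 2, mul_assoc, ← div_eq_mul_inv, ← div_pow]
  refine mul_le_mul_of_nonneg_left ?_ (by positivity)
  nlinarith [sq_nonneg (U - Nw (fun _ => 1) A (gg f A y) / μ)]

lemma DD_top {d : ℕ} {f : Finset ι → ℝ} (hf : Cls d univ f) {I : ℝ} (h1 : ∀ j z, |dj f j z| ≤ 1)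
    (hI : ∀ z, ∑ j, |dj f j z| ≤ I) {m : ℕ} (hm1 : 1 ≤ m) (hm : m ≤ Fintype.card ι) :
    DD (fun _ => 1) f m ≤ 64 * 27 ^ d * (1 + 2 * (m * I / Fintype.card ι) ^ 2) := by
  set ν : ℝ := 4 * 3 ^ d with hν
  have h3d : (1 : ℝ) ≤ 3 ^ d := one_le_pow₀ (by norm_num)
  have hν1 : 1 ≤ ν := by linarith
  have h2 := DD_interp h1 hI hm1 hm (r := 1 / 3) (μ := ν ^ (3 / 2 : ℝ)) (by norm_num) (by norm_num)
    (Real.one_le_rpow hν1 (by norm_num))
  have e1 : (ν ^ (3 / 2 : ℝ)) ^ (4 * (1 / 3) : ℝ) = ν ^ 2 := by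
    rw [← Real.rpow_mul (by linarith), ← Real.rpow_natCast]; norm_num
  have e2 : (ν ^ (3 / 2 : ℝ)) ^ 2 = ν ^ 3 := by
    rw [← Real.rpow_natCast, ← Real.rpow_mul (by linarith), ← Real.rpow_natCast]; norm_num
  rw [e1, e2] at h2
  have h3 : DD (fun _ => 1) f m ≤ 3 ^ d * DD (fun i => (1 / 3 : ℝ) ^ i) f m := by
    unfold DD
    rw [mul_expect]
    refine expect_le_expect fun A _ => ?_
    rw [mul_expect]
    refine expect_le_expect fun y _ => Nw_sq_le (by positivity) _ _ fun j _ t _ h => ?_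
    have h4 : t.card ≤ d := by
      by_contra h5
      exact h (gg_zero hf A y (lt_of_lt_of_le (not_le.1 h5) (card_le_card (subset_insert j t))))
    rw [one_div, inv_pow, ← div_eq_mul_inv, one_le_div (by positivity)]
    exact pow_le_pow_right₀ (by norm_num) h4
  have h4 := h3.trans (mul_le_mul_of_nonneg_left h2 (by positivity))
  set X := 1 + 2 * (m * I / Fintype.card ι) ^ 2
  have e3 : 3 ^ d * (2 * ν ^ 2 * (X + DD (fun _ => 1) f m / ν ^ 3)) =
      32 * 27 ^ d * X + DD (fun _ => 1) f m / 2 := by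
    rw [hν, show (27 : ℝ) = 3 ^ 3 by norm_num, ← pow_mul, mul_comm 3 d, pow_mul]
    field_simp
    ring
  rw [e3] at h4
  linarith

/-- The bound at the smallest scale. -/
theorem DD_base {d m0 R J : ℕ} {f : Finset ι → ℝ} (hf : Cls d univ f)
    (hf' : ∀ S, S.card ≠ d → f S = 0) {E : ℝ} (hE : 1 ≤ E) (h1 : ∀ j z, |dj f j z| ≤ 1)
    (hI : ∀ z, ∑ j, |dj f j z| ≤ d * E) (hm0 : 2 ≤ m0) (hR : 2 ≤ R) (hd : d ≤ R ^ J)
    (hn : Fintype.card ι = m0 * R ^ (J + 1)) :
    DD (fun _ => 1) f m0 ≤ Real.exp ((13 + 2 * Real.log E) * 3 ^ J) := by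
  set β := 13 + 2 * Real.log E with hβ
  have hlE := Real.log_nonneg hE
  have hR' : (2 : ℝ) ≤ R := by exact_mod_cast hR
  have hm' : (2 : ℝ) ≤ m0 := by exact_mod_cast hm0
  have hd' : (d : ℝ) ≤ R ^ J := by exact_mod_cast hd
  have hd0 : (0 : ℝ) ≤ d := by positivity
  have hn' : (Fintype.card ι : ℝ) = m0 * R ^ (J + 1) := by exact_mod_cast hn
  have hE2 : E ^ 2 = Real.exp (2 * Real.log E) := by
    rw [show 2 * Real.log E = (2 : ℕ) * Real.log E by norm_num, Real.exp_nat_mul,
      Real.exp_log (by linarith)]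
  have hp1 : ∀ i, 1 ≤ m0 * R ^ i := fun i => Nat.mul_pos (by omega) (pow_pos (by omega) i)
  have hp2 : ∀ i, i ≤ J → 2 * (m0 * R ^ i) ≤ Fintype.card ι := fun i hi => by
    rw [hn, pow_succ]
    have := Nat.mul_le_mul (Nat.pow_le_pow_right (show 0 < R by omega) hi) hR
    nlinarith
  have hx : ∀ i, (1 : ℝ) ≤ R ^ i := fun i => one_le_pow₀ (by linarith)
  have he : ∀ k : ℕ, (2 : ℝ) ^ k ≤ Real.exp k := fun k => by
    rw [← Real.exp_one_pow]
    exact pow_le_pow_left₀ (by norm_num) (by linarith [Real.add_one_le_exp 1]) k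
  have key : ∀ s i, i + s = J → DD (fun _ => 1) f (m0 * R ^ i) ≤ Real.exp (β * 3 ^ s * R ^ i) := by
    intro s
    induction s with
    | zero =>
      intro i hi
      rw [add_zero] at hi
      subst hi
      refine (DD_top hf h1 hI (hp1 i) (by have := hp2 i le_rfl; omega)).trans ?_
      have a1 : ((m0 * R ^ i : ℕ) : ℝ) * (d * E) / Fintype.card ι ≤ d * E / 2 := by
        rw [hn', div_le_div_iff₀ (by positivity) (by norm_num), pow_succ]
        push_cast
        have : 0 ≤ m0 * R ^ i * (d * E) := by positivity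
        nlinarith
      have a2 := pow_le_pow_left₀ (by positivity) a1 2
      have a3 : (d : ℝ) + 1 ≤ Real.exp d := Real.add_one_le_exp _
      have a4 : 1 + 2 * (d * E / 2) ^ 2 ≤ Real.exp (2 * d + 2 * Real.log E) := by
        rw [Real.exp_add, ← hE2, two_mul (d : ℝ), Real.exp_add]
        have b1 := mul_le_mul a3 a3 (by positivity) (by positivity)
        have b2 : 1 ≤ E ^ 2 := one_le_pow₀ hE
        nlinarith [mul_le_mul_of_nonneg_right b1 (sq_nonneg E), mul_nonneg hd0 (sq_nonneg E),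
          sq_nonneg (d * E)]
      have a5 : (27 : ℝ) ^ d ≤ Real.exp (5 * d) := by
        rw [mul_comm, Real.exp_nat_mul]
        exact pow_le_pow_left₀ (by norm_num) (le_trans (by norm_num) (he 5)) d
      have a6 : (64 : ℝ) ≤ Real.exp 6 := le_trans (by norm_num) (he 6)
      calc _ ≤ Real.exp 6 * Real.exp (5 * d) * Real.exp (2 * d + 2 * Real.log E) :=
            mul_le_mul (mul_le_mul a6 a5 (by positivity) (by positivity)) (by linarith)
              (by positivity) (by positivity)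
        _ ≤ _ := by
            rw [← Real.exp_add, ← Real.exp_add, Real.exp_le_exp, hβ]
            nlinarith [hx i]
    | succ s ih =>
      intro i hi
      have a0 := ih (i + 1) (by omega)
      have a1 := DD_up_iter hf' (hp1 i) (m' := m0 * R ^ (i + 1))
        (Nat.mul_le_mul_left _ (Nat.pow_le_pow_right (by omega) (by omega))) (hp2 _ (by omega))
        (by rw [hn, pow_succ]; nlinarith [Nat.mul_le_mul hm0 hR])
      have e1 : ((m0 * R ^ i : ℕ) : ℝ) / (m0 * R ^ (i + 1) : ℕ) = 1 / R := by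
        push_cast
        field_simp
        ring
      rw [e1] at a1
      set t : ℝ := β * 3 ^ s * R ^ i with ht
      have ht0 : 0 ≤ t := by positivity
      have a2 := DD_interp h1 hI (hp1 (i + 1)) (by have := hp2 (i + 1) (by omega); omega)
        (r := 1 / R) (μ := Real.exp (t * R / 2)) (by positivity)
        (by rw [div_le_one (by linarith)]; linarith) (Real.one_le_exp (by positivity))
      have e2 : Real.exp (t * R / 2) ^ (4 * (1 / (R : ℝ))) = Real.exp (2 * t) := by
        rw [← Real.exp_mul]; congr 1; field_simp; ring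
      have e3 : Real.exp (t * R / 2) ^ 2 = Real.exp (β * 3 ^ s * R ^ (i + 1)) := by
        rw [← Real.exp_nat_mul]; congr 1; rw [ht]; push_cast; ring
      rw [e2, e3] at a2
      have a3 := (div_le_one (Real.exp_pos _)).2 a0
      have a4 : (d : ℝ) * (m0 * R ^ (i + 1) : ℕ) / Fintype.card ι ≤ R ^ i := by
        rw [hn', div_le_iff₀ (by positivity), pow_succ, pow_succ]
        push_cast
        have : 0 ≤ (m0 : ℝ) * (R ^ i * R) := by positivity
        nlinarith
      have a5 : ((m0 * R ^ (i + 1) : ℕ) : ℝ) * (d * E) / Fintype.card ι ≤ R ^ i * E := by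
        refine le_trans (le_of_eq (by ring)) (mul_le_mul_of_nonneg_right a4 (by linarith))
      have a6 := pow_le_pow_left₀ (by positivity) a5 2
      have a7 : (R : ℝ) ^ i ≤ Real.exp (R ^ i) := by linarith [Real.add_one_le_exp ((R : ℝ) ^ i)]
      have a8 : ((R : ℝ) ^ i * E) ^ 2 ≤ Real.exp (2 * R ^ i + 2 * Real.log E) := by
        rw [Real.exp_add, ← hE2, two_mul, Real.exp_add, mul_pow, sq]
        exact mul_le_mul_of_nonneg_right (mul_le_mul a7 a7 (by positivity) (by positivity))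
          (sq_nonneg _)
      have a9 : 1 ≤ Real.exp (2 * R ^ i + 2 * Real.log E) := Real.one_le_exp (by positivity)
      have b1 : (8 : ℝ) ≤ Real.exp 3 := le_trans (by norm_num) (he 3)
      have b2 : Real.exp (8 * d * (m0 * R ^ (i + 1) : ℕ) / Fintype.card ι) ≤
          Real.exp (8 * R ^ i) := Real.exp_le_exp.2 (by rw [mul_assoc, mul_div_assoc]; linarith)
      have b3 : DD (fun k => (1 / (R : ℝ)) ^ k) f (m0 * R ^ (i + 1)) ≤
          Real.exp (2 * t) * (Real.exp 3 * Real.exp (2 * R ^ i + 2 * Real.log E)) := by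
        refine a2.trans ?_
        rw [mul_comm 2 (Real.exp _), mul_assoc]
        refine mul_le_mul_of_nonneg_left ?_ (Real.exp_pos _).le
        nlinarith
      refine (a1.trans (mul_le_mul b2 b3 (DD_nonneg _ _ _) (Real.exp_pos _).le)).trans ?_
      rw [← Real.exp_add, ← Real.exp_add, ← Real.exp_add, Real.exp_le_exp, pow_succ]
      have b4 : β * R ^ i ≤ t := by
        rw [ht]
        exact mul_le_mul_of_nonneg_right (le_mul_of_one_le_right (by positivity)
          (one_le_pow₀ (by norm_num))) (by positivity)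
      nlinarith [hx i]
  simpa using key J 0 (by omega)

end Pool.Agent.Lib.MP_de5887_an.Ex
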