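import Pool.Agent.Lib.MP_de5887_an.Ex.Harris

set_option autoImplicit false

open Finset
open scoped BigOperators

namespace Pool.Agent.Lib.MP_de5887_an.Ex

lemma unweight {K d : ℕ} (hK : 2 ≤ K) (hd : K < d) {M m0 n S Z : ℝ} (hM : 1 ≤ M) (hm0 : 0 < m0)
    (hn : 0 ≤ n) (hS : 0 ≤ S) (hZ : 1 ≤ Z)
    (h : vv (ell K (Real.log M) (2 * K + 2 : ℕ) m0 n) d * S ≤ Z) :
    S ^ (((d : ℝ) + 1) / (2 * d)) ≤ d * M ^ (1 / (K : ℝ)) * (1 + n / (m0 * d)) ^ (K + 1) * Z := by
  have hK' : (2 : ℝ) ≤ K := by exact_mod_cast hK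
  have hd' : (K : ℝ) < d := by exact_mod_cast hd
  have hd0 : (0 : ℝ) < d := by linarith
  have hv := vv_pos (ell K (Real.log M) (2 * K + 2 : ℕ) m0 n) d
  have h1 : S ≤ Z * (vv (ell K (Real.log M) (2 * K + 2 : ℕ) m0 n) d)⁻¹ := by
    rw [← div_eq_mul_inv, le_div_iff₀ hv, mul_comm]; exact h
  refine (Real.rpow_le_rpow hS h1 (by positivity)).trans ?_
  rw [Real.mul_rpow (by linarith) (by positivity), mul_comm]
  refine mul_le_mul ?_ ?_ (by positivity) (by positivity)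
  · unfold vv ell
    have hz : 0 < 1 + n / (m0 * d) := by positivity
    rw [← Real.exp_neg, ← Real.exp_mul, ← Real.exp_log (show 0 < (d : ℝ) * M ^ (1 / (K : ℝ)) *
      (1 + n / (m0 * d)) ^ (K + 1) by positivity), Real.exp_le_exp,
      Real.log_mul (y := (1 + n / (m0 * d)) ^ (K + 1)) (by positivity) (by positivity),
      Real.log_mul (y := M ^ (1 / (K : ℝ))) hd0.ne' (by positivity),
      Real.log_pow, Real.log_rpow (show 0 < M by linarith)]
    have a1 : Real.log (d * (d - 1)) ≤ 2 * Real.log d := by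
      rw [two_mul, ← Real.log_mul hd0.ne' hd0.ne']
      exact Real.log_le_log (by nlinarith) (by nlinarith)
    have a2 := Real.log_nonneg hM
    have a3 : 0 ≤ Real.log M * (1 / K) := by positivity
    have a4 : 0 ≤ Real.log M * (1 / d) := by positivity
    have e : ∀ x : ℝ, -((d : ℝ) / (d + 1) * x) * ((d + 1) / (2 * d)) = -x / 2 := fun x => by
      field_simp
    rw [e]
    push_cast
    linarith
  · refine (Real.rpow_le_rpow_of_exponent_le hZ ?_).trans (Real.rpow_one Z).le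
    rw [div_le_one (by positivity)]
    linarith

theorem core {η : ℝ} (hη : 0 < η) : ∃ C : ℝ, 0 < C ∧ ∃ K : ℕ, ∀ d : ℕ, K < d → ∀ n : ℕ,
    ∃ N : ℕ, n ≤ N ∧ ∀ f : Finset (Fin N) → ℝ, Cls d univ f → (∀ S, S.card ≠ d → f S = 0) →
      (∑ S ∈ PP (Fin N) d, |f S| ^ qq d) ^ (((d : ℝ) + 1) / (2 * d)) ≤ C * d ^ (1 + 3 * η) := by
  obtain ⟨K, hK, hK2⟩ : ∃ K : ℕ, 2 ≤ K ∧ CC / K ≤ η := by
    refine ⟨⌈CC / η⌉₊ + 2, by omega, ?_⟩
    have := Nat.le_ceil (CC / η)
    rw [div_le_iff₀ hη] at this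
    rw [div_le_iff₀ (by positivity)]
    push_cast
    nlinarith
  obtain ⟨J, hJ, hJ2⟩ : ∃ J : ℕ, 1 ≤ J ∧ ((K : ℝ) + 2) / J ≤ η := by
    refine ⟨⌈((K : ℝ) + 2) / η⌉₊ + 1, by omega, ?_⟩
    have := Nat.le_ceil (((K : ℝ) + 2) / η)
    rw [div_le_iff₀ hη] at this
    rw [div_le_iff₀ (by positivity)]
    push_cast
    nlinarith
  set δ : ℝ := η / (2 * 3 ^ J) with hδ
  have hδ0 : 0 < δ := by positivity
  set α : ℝ := 1 / (1 + δ) with hα
  have h0 : 0 < α := by positivity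
  have h1 : α < 1 := by rw [hα, div_lt_one (by positivity)]; linarith
  set c : ℝ := Real.exp (1 / (α * Real.cos (Real.pi / 2 * α))) with hc
  have hc1 : 1 ≤ c := Real.one_le_exp (by have := cos_pos' h0 h1; positivity)
  set C1 : ℝ := Real.exp ((13 + 2 * Real.log (2 * c)) * 3 ^ J) with hC1
  have hC10 : 0 < C1 := Real.exp_pos _
  refine ⟨4 * (2 ^ (J + 2)) ^ (K + 2) * (C1 + 3 + (K * ((2 * K) ^ (2 * K + 2) * C1) + 12 * K)),
    by positivity, K, fun d hd n => ?_⟩
  have hK' : (2 : ℝ) ≤ K := by exact_mod_cast hK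
  have hd' : (K : ℝ) < d := by exact_mod_cast hd
  have hd1 : (1 : ℝ) < d := by linarith
  have hJ' : (1 : ℝ) ≤ J := by exact_mod_cast hJ
  set ρ : ℝ := d ^ (1 / (J : ℝ)) with hρ
  have hρ1 : 1 < ρ := Real.one_lt_rpow hd1 (by positivity)
  have hρJ : ρ ^ J = d := by
    rw [hρ, one_div]; exact Real.rpow_inv_natCast_pow (by positivity) (by omega)
  set R := ⌈ρ⌉₊ with hR
  have hR1 : ρ ≤ R := Nat.le_ceil ρ
  have hR2 : (R : ℝ) ≤ 2 * ρ := by linarith [Nat.ceil_lt_add_one (show 0 ≤ ρ by linarith)]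
  have hR3 : 2 ≤ R := by
    have : (1 : ℝ) < R := by linarith
    exact_mod_cast this
  have hR3' : (2 : ℝ) ≤ R := by exact_mod_cast hR3
  have hR4 : (d : ℝ) ≤ R ^ J := hρJ ▸ pow_le_pow_left₀ (by linarith) hR1 J
  have hR5 : (R : ℝ) ^ (J + 1) / d ≤ 2 ^ (J + 1) * ρ := by
    rw [div_le_iff₀ (by linarith), ← hρJ]
    calc _ ≤ (2 * ρ) ^ (J + 1) := pow_le_pow_left₀ (by positivity) hR2 _
      _ = _ := by ring
  set m0 := n + 2 * K with hm0
  have hpos : 1 ≤ R ^ (J + 1) := Nat.pow_pos (by omega)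
  refine ⟨m0 * R ^ (J + 1), by nlinarith, fun f hf hf' => ?_⟩
  have hm0' : (0 : ℝ) < m0 := by exact_mod_cast (show 0 < m0 by omega)
  set X : ℝ := d ^ η with hX
  have hX1 : 1 ≤ X := Real.one_le_rpow hd1.le hη.le
  have hdδ : 1 ≤ (d : ℝ) ^ δ := Real.one_le_rpow hd1.le hδ0.le
  have hD := DD_base (m0 := m0) (R := R) (J := J) hf hf' (E := 2 * c * d ^ δ) (by nlinarith)
    (abs_dj_le hf) (fun z => (sum_abs_dj_le (by omega) hf hf' h0 h1 z).trans (le_of_eq (by
      rw [← hc, hα, one_div_one_div, Real.rpow_add (by linarith), Real.rpow_one]; ring)))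
    (by omega) hR3 (by exact_mod_cast hR4) (Fintype.card_fin _)
  have hD2 : DD (fun _ => 1) f m0 ≤ C1 * X := by
    refine hD.trans (le_of_eq ?_)
    rw [hC1, hX, Real.rpow_def_of_pos (by linarith) η, ← Real.exp_add,
      Real.log_mul (by positivity) (by positivity), Real.log_rpow (by linarith), hδ]
    congr 1
    field_simp
    ring
  have hfl := flow hK hd (m0 := m0) (by omega) (by rw [Fintype.card_fin]; nlinarith) hf
  rw [Fintype.card_fin] at hfl
  set M : ℝ := 3 + d ^ CC with hM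
  have hCC : 1 ≤ (d : ℝ) ^ CC := Real.one_le_rpow hd1.le CC_pos.le
  have hM1 : 1 ≤ M := by linarith
  have hMK : M ^ (1 / (K : ℝ)) ≤ 4 * X := by
    have a1 : 1 / (K : ℝ) ≤ 1 := by rw [div_le_one (by linarith)]; linarith
    calc _ ≤ (4 * (d : ℝ) ^ CC) ^ (1 / (K : ℝ)) :=
          Real.rpow_le_rpow (by linarith) (by linarith) (by positivity)
      _ = (4 : ℝ) ^ (1 / (K : ℝ)) * (d : ℝ) ^ (CC / K) := by
          rw [Real.mul_rpow (by norm_num) (by positivity), ← Real.rpow_mul (by positivity),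
            mul_one_div]
      _ ≤ 4 * X := mul_le_mul ((Real.rpow_le_rpow_of_exponent_le (by norm_num) a1).trans
          (Real.rpow_one 4).le) (Real.rpow_le_rpow_of_exponent_le hd1.le hK2) (by positivity)
          (by norm_num)
  have hL : Real.log M ≤ 4 * K * X := by
    refine (Real.log_le_rpow_div (by linarith) (show 0 < 1 / (K : ℝ) by positivity)).trans ?_
    rw [div_div_eq_mul_div, div_one]
    nlinarith
  have hL0 := Real.log_nonneg hM1
  have hD0 := DD_nonneg (fun _ => 1) f m0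
  set B := DD (fun _ => 1) f m0 + 3 + (K * ((2 * K) ^ (2 * K + 2) * DD (fun _ => 1) f m0) +
    3 * Real.log M) with hB
  have hB1 : 1 ≤ B := by
    have : 0 ≤ K * ((2 * K) ^ (2 * K + 2) * DD (fun _ => 1) f m0) := by positivity
    linarith
  have hB2 : B ≤ (C1 + 3 + (K * ((2 * K) ^ (2 * K + 2) * C1) + 12 * K)) * X := by
    have := mul_le_mul_of_nonneg_left hD2 (show 0 ≤ (K : ℝ) * (2 * K) ^ (2 * K + 2) by positivity)
    linarith
  set W : ℝ := R ^ (J + 1) / d with hW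
  have hW1 : 1 ≤ W := by
    rw [hW, le_div_iff₀ (by linarith), pow_succ]
    nlinarith
  have hS0 : 0 ≤ ∑ S ∈ PP (Fin (m0 * R ^ (J + 1))) d, |f S| ^ qq d :=
    sum_nonneg fun _ _ => by positivity
  have e1 : ((m0 * R ^ (J + 1) : ℕ) : ℝ) / m0 = d * W := by
    rw [hW]; push_cast; field_simp
  have e2 : ((m0 * R ^ (J + 1) : ℕ) : ℝ) / (m0 * d) = W := by
    rw [hW]; push_cast; field_simp
  have h2 := unweight hK hd hM1 hm0' (Nat.cast_nonneg (m0 * R ^ (J + 1))) hS0 (Z := W * B)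
    (by nlinarith) (by
      refine le_of_mul_le_mul_left ?_ (show (0 : ℝ) < d by linarith)
      rw [e1] at hfl
      have := mul_nonneg (vv_pos (ell K (Real.log M) (2 * K + 2 : ℕ) m0
        (m0 * R ^ (J + 1) : ℕ)) d).le hS0
      linarith)
  rw [e2] at h2
  refine h2.trans ?_
  have a1 : 1 + W ≤ 2 ^ (J + 2) * ρ := by
    have : (1 : ℝ) ≤ 2 ^ (J + 1) := one_le_pow₀ (by norm_num)
    rw [pow_succ]
    nlinarith
  have a2 : (1 + W) ^ (K + 1) * W ≤ (2 ^ (J + 2)) ^ (K + 2) * X := by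
    calc _ ≤ (1 + W) ^ (K + 2) := by
          rw [pow_succ _ (K + 1)]
          exact mul_le_mul_of_nonneg_left (by linarith) (by positivity)
      _ ≤ (2 ^ (J + 2) * ρ) ^ (K + 2) := pow_le_pow_left₀ (by positivity) a1 _
      _ ≤ _ := by
          rw [mul_pow]
          refine mul_le_mul_of_nonneg_left ?_ (by positivity)
          rw [hρ, ← Real.rpow_natCast, ← Real.rpow_mul (by positivity)]
          refine Real.rpow_le_rpow_of_exponent_le hd1.le ?_
          rw [one_div_mul_eq_div]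
          exact_mod_cast hJ2
  have e3 : (d : ℝ) ^ (1 + 3 * η) = d * X * X * X := by
    rw [show 1 + 3 * η = 1 + η + η + η by ring, Real.rpow_add (by linarith),
      Real.rpow_add (by linarith), Real.rpow_add (by linarith), Real.rpow_one]
  rw [e3]
  calc _ = d * M ^ (1 / (K : ℝ)) * ((1 + W) ^ (K + 1) * W) * B := by ring
    _ ≤ d * (4 * X) * ((2 ^ (J + 2)) ^ (K + 2) * X) *
        ((C1 + 3 + (K * ((2 * K) ^ (2 * K + 2) * C1) + 12 * K)) * X) := by gcongr
    _ = _ := by ring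

lemma sum_extend {ι κ : Type*} [Fintype ι] [Fintype κ] (e : ι ↪ κ) (a : Finset ι → ℝ)
    (φ : Finset κ → ℝ → ℝ) (hφ : ∀ T, φ T 0 = 0) :
    ∑ T ∈ (univ : Finset κ).powerset, φ T (Function.extend (Finset.map e) a 0 T) =
      ∑ S ∈ (univ : Finset ι).powerset, φ (S.map e) (a S) := by
  classical
  symm
  refine sum_of_injOn (Finset.map e) (map_injective e).injOn (by simp) (fun T _ hT => ?_)
    fun S _ => by rw [(map_injective e).extend_apply]
  rw [Function.extend_apply' _ _ _ fun ⟨S, hS⟩ => hT ⟨S, by simp, hS⟩]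
  exact hφ T

/-- Almost linear growth, normalised form. -/
theorem near_linear {ε : ℝ} (hε : 0 < ε) : ∃ C : ℝ, 0 < C ∧ ∀ d : ℕ, 1 ≤ d → ∀ (n : ℕ)
    (a : Finset (Fin n) → ℝ), (∀ x : Fin n → Bool, |∑ S ∈ PP (Fin n) d, a S * ∏ i ∈ S, sg (x i)| ≤ 1) →
      (∑ S ∈ PP (Fin n) d, |a S| ^ qq d) ^ (((d : ℝ) + 1) / (2 * d)) ≤ C * d ^ (1 + ε) := by
  obtain ⟨C, hC, K, h⟩ := core (η := ε / 3) (by positivity)
  refine ⟨C + (K + 1) ^ CC, by positivity, fun d hd n a ha => ?_⟩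
  have hd1 : (1 : ℝ) ≤ d := by exact_mod_cast hd
  have hp : 1 ≤ (d : ℝ) ^ (1 + ε) := Real.one_le_rpow hd1 (by linarith)
  have hK0 : 0 ≤ ((K : ℝ) + 1) ^ CC := by positivity
  rcases le_or_gt d K with hdK | hdK
  · obtain ⟨x, hx⟩ := bh_hom d hd a
    have h1 : (d : ℝ) ^ CC ≤ (K + 1) ^ CC := Real.rpow_le_rpow (by positivity)
      (by have : (d : ℝ) ≤ K := by exact_mod_cast hdK
          linarith) CC_pos.le
    refine (hx.trans (mul_le_of_le_one_right (by positivity) (ha x))).trans (h1.trans ?_)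
    nlinarith
  obtain ⟨N, hN, h2⟩ := h d hdK n
  set e : Fin n ↪ Fin N := Fin.castLEEmb hN
  set a' : Finset (Fin n) → ℝ := fun T => if T.card = d then a T else 0 with ha'
  set f := Function.extend (Finset.map e) a' 0 with hf
  have hf' : ∀ S, S.card ≠ d → f S = 0 := by
    intro S hS
    by_cases h3 : ∃ T, Finset.map e T = S
    · obtain ⟨T, rfl⟩ := h3
      rw [hf, (map_injective e).extend_apply]
      exact if_neg (by simpa using hS)
    · rw [hf, Function.extend_apply' _ _ _ h3]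
      rfl
  have h3 := h2 f ⟨fun T _ hT => hf' T hT.ne', fun x => by
    have h4 := ha fun i => x (e i)
    rw [← ev_level] at h4
    unfold ev mev at h4 ⊢
    rw [sum_extend e a' (fun T u => u * ∏ i ∈ T, sg (x i)) fun T => zero_mul _]
    simpa only [prod_map] using h4⟩ hf'
  have e1 : ∑ S ∈ PP (Fin N) d, |f S| ^ qq d = ∑ S ∈ PP (Fin n) d, |a S| ^ qq d := by
    rw [sum_level, sum_level, sum_extend e a' (fun T u => if T.card = d then |u| ^ qq d else 0)
      fun T => by simp [Real.zero_rpow (qq_pos hd).ne']]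
    refine sum_congr rfl fun S _ => ?_
    by_cases h4 : S.card = d <;> simp [ha', h4]
  rw [e1, show 1 + 3 * (ε / 3) = 1 + ε by ring] at h3
  nlinarith

end Pool.Agent.Lib.MP_de5887_an.Ex
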