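import Pool.Agent.Lib.MP_de5887_an.Ex.Avg

set_option autoImplicit false

open Finset
open scoped BigOperators

namespace Pool.Agent.Lib.MP_de5887_an.Ex

variable {ι : Type*} [DecidableEq ι] [Fintype ι]

/-- Coefficients of the restriction of `f` to the variables in `A`. -/
def gg (f : Finset ι → ℝ) (A : Finset ι) (y : ι → Bool) : Finset ι → ℝ :=
  fun S => ev Aᶜ (fun t => f (S ∪ t)) y

lemma gg_erase (f : Finset ι → ℝ) {A : Finset ι} {c : ι} (hc : c ∈ A) (y : ι → Bool) :
    gg f (A.erase c) y = fun s => gg f A y s + sg (y c) * gg f A y (insert c s) := by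
  funext s
  unfold gg
  rw [compl_erase, ev_insert (by simpa using hc)]
  simp only [union_insert, insert_union]

lemma gg_update (f : Finset ι → ℝ) {A : Finset ι} {c : ι} (hc : c ∈ A) (y : ι → Bool) (b : Bool) :
    gg f A (Function.update y c b) = gg f A y := by
  funext s
  exact ev_update (by simpa using hc) _ _ _

lemma expect_gg (f : Finset ι → ℝ) {A : Finset ι} {c : ι} (hc : c ∈ A)
    (Φ : (Finset ι → ℝ) → ℝ) : 𝔼 y, Φ (gg f (A.erase c) y) =
      𝔼 y, (Φ (fun s => gg f A y s + 1 * gg f A y (insert c s)) +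
        Φ (fun s => gg f A y s + (-1) * gg f A y (insert c s))) / 2 := by
  rw [← expect_pm c (fun σ y => Φ (fun s => gg f A y s + σ * gg f A y (insert c s)))
    (fun σ y b => by simp only [gg_update f hc])]
  exact expect_congr rfl fun y _ => by rw [gg_erase f hc]

lemma gg_zero {d : ℕ} {f : Finset ι → ℝ} (hf : Cls d univ f) (A : Finset ι) (y : ι → Bool)
    {S : Finset ι} (hS : d < S.card) : gg f A y S = 0 := by
  unfold gg ev mev
  refine sum_eq_zero fun t _ => ?_
  simp only
  rw [hf.1 _ (mem_powerset.2 (subset_univ _)) (hS.trans_le (card_le_card subset_union_left)),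
    zero_mul]

lemma gg_cls {d : ℕ} {f : Finset ι → ℝ} (hf : Cls d univ f) (A : Finset ι) (y : ι → Bool) :
    Cls d A (gg f A y) := by
  refine ⟨fun S _ hS => gg_zero hf A y hS, fun x => ?_⟩
  unfold gg
  rw [ev_restrict disjoint_compl_right, union_compl]
  exact hf.2 _

lemma gg_univ (f : Finset ι → ℝ) (y : ι → Bool) : gg f univ y = f := by
  funext s
  simp [gg, ev, mev]

/-- Averaged square of the mixed norm of the restrictions. -/
noncomputable def DD (ρ : ℕ → ℝ) (f : Finset ι → ℝ) (m : ℕ) : ℝ :=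
  𝔼 A ∈ PP ι m, 𝔼 y, Nw ρ A (gg f A y) ^ 2

lemma DD_nonneg (ρ : ℕ → ℝ) (f : Finset ι → ℝ) (m : ℕ) : 0 ≤ DD ρ f m :=
  expect_nonneg fun _ _ => expect_nonneg fun _ _ => sq_nonneg _

/-- Averaged weighted sums of the restrictions. -/
noncomputable def PH (K : ℕ) (l : ℕ → ℝ) (f : Finset ι → ℝ) (m : ℕ) : ℝ :=
  𝔼 A ∈ PP ι m, 𝔼 y, Phi K l A (gg f A y)

lemma DD_ind_step {K m : ℕ} (hm : m < Fintype.card ι) (hK : K ≤ m) (f : Finset ι → ℝ) :
    ((m : ℝ) - K) ^ 2 * DD (ind K) f (m + 1) ≤ ((m : ℝ) + 1) ^ 2 * DD (ind K) f m := by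
  have hK' : (K : ℝ) ≤ m := by exact_mod_cast hK
  have h := EE_down hm fun B => 𝔼 y, Nw (ind K) B (gg f B y) ^ 2
  unfold DD
  rw [sq ((m : ℝ) + 1), mul_assoc, ← h, mul_expect, mul_expect]
  refine expect_le_expect fun A hA => ?_
  have hAm := PP_card hA
  have h2 : ∀ c ∈ A, 𝔼 y, Nw (ind K) (A.erase c) (gg f A y) ^ 2 ≤
      𝔼 y, Nw (ind K) (A.erase c) (gg f (A.erase c) y) ^ 2 := by
    intro c hc
    rw [expect_gg f hc fun a => Nw (ind K) (A.erase c) a ^ 2]
    exact expect_le_expect fun y _ => Nw_sq_pm (ind_nonneg K) _ _ _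
  refine le_trans ?_ (mul_le_mul_of_nonneg_left (sum_le_sum h2) (by positivity))
  rw [← expect_sum_comm, mul_expect, mul_expect]
  refine expect_le_expect fun y _ => ?_
  have h3 := Nw_ind_le K A (gg f A y)
  have h4 := sq_sum_le_card_mul_sum_sq (s := A) (f := fun c => Nw (ind K) (A.erase c) (gg f A y))
  rw [hAm] at h3 h4
  push_cast at h3 h4
  rw [add_sub_cancel_right] at h3
  rw [← mul_pow]
  exact (pow_le_pow_left₀ (mul_nonneg (by linarith) (Nw_nonneg _ _ _)) h3 2).trans h4

lemma DD_ind_le {K m0 m : ℕ} (hK : K < m0) (h0 : m0 ≤ m) (hm : m ≤ Fintype.card ι)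
    (f : Finset ι → ℝ) : ((m0 : ℝ) - K) ^ (2 * K + 2) * DD (ind K) f m ≤
      ((m : ℝ) - K) ^ (2 * K + 2) * DD (ind K) f m0 := by
  induction m, h0 using Nat.le_induction with
  | base => exact le_rfl
  | succ m h0 ih =>
    have h1 := ih (by omega)
    have h2 := DD_ind_step (K := K) hm (by omega) f
    have hK' : (K : ℝ) < m0 := by exact_mod_cast hK
    have h0' : (m0 : ℝ) ≤ m := by exact_mod_cast h0
    set x := (m : ℝ) - K with hx
    have hx0 : 0 < x := by linarith
    have h3 : ((m : ℝ) + 1) * x ^ (K + 1) ≤ (x + 1) ^ (K + 1) * x := by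
      have h4 := one_add_mul_le_pow (a := 1 / x) (by linarith [one_div_pos.2 hx0]) (K + 1)
      have h5 := mul_le_mul_of_nonneg_left h4 (show 0 ≤ x ^ (K + 1) * x by positivity)
      refine le_trans (le_of_eq ?_) (h5.trans (le_of_eq ?_))
      · rw [show (m : ℝ) = x + K by linarith]
        push_cast
        field_simp
        ring
      · rw [mul_right_comm, ← mul_pow]
        congr 2
        field_simp
    have h4 := pow_le_pow_left₀ (by positivity) h3 2
    rw [mul_pow, mul_pow, ← pow_mul, ← pow_mul, show (K + 1) * 2 = 2 * K + 2 by ring] at h4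
    push_cast
    rw [show (m : ℝ) + 1 - K = x + 1 by linarith]
    refine le_of_mul_le_mul_left ?_ (show 0 < x ^ 2 by positivity)
    have h5 := mul_le_mul_of_nonneg_left h2 (show 0 ≤ ((m0 : ℝ) - K) ^ (2 * K + 2) from
      pow_nonneg (by linarith) _)
    have h6 := mul_le_mul_of_nonneg_left h1 (show 0 ≤ ((m : ℝ) + 1) ^ 2 by positivity)
    have h7 := mul_le_mul_of_nonneg_right h4 (DD_nonneg (ind K) f m0)
    linarith

lemma DD_ind_one (K : ℕ) (f : Finset ι → ℝ) (m : ℕ) : DD (ind K) f m ≤ DD (fun _ => 1) f m := by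
  refine expect_le_expect fun A _ => expect_le_expect fun y _ => ?_
  have := Nw_sq_le (ρ := ind K) (ρ' := fun _ => 1) zero_le_one A (gg f A y) fun _ _ t _ _ => by
    unfold ind; split_ifs <;> norm_num
  rwa [one_mul] at this

lemma src_le {K m0 m : ℕ} (hK : 2 ≤ K) (h2 : 2 * K ≤ m0) (h0 : m0 ≤ m) (hm : m < Fintype.card ι)
    {L : ℝ} (hL : 0 ≤ L) (f : Finset ι → ℝ) :
    Real.exp (ell K L (2 * K + 2 : ℕ) m0 m K) * kap K * DD (ind K) f (m + 1) ≤
      (2 * K) ^ (2 * K + 2) * DD (fun _ => 1) f m0 := by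
  have hK' : (2 : ℝ) ≤ K := by exact_mod_cast hK
  have h2' : 2 * (K : ℝ) ≤ m0 := by exact_mod_cast h2
  have h0' : (m0 : ℝ) ≤ m := by exact_mod_cast h0
  have hm0 : (0 : ℝ) < m0 := by linarith
  set z : ℝ := 1 + m / (m0 * K) with hz
  have hz0 : 0 < z := by positivity
  have a1 : Real.exp (ell K L (2 * K + 2 : ℕ) m0 m K) ≤ (z ^ (2 * K + 2))⁻¹ := by
    refine (Real.exp_le_exp.2 (ell_nonpos hK le_rfl hL (by positivity) hm0
      (by positivity)).1).trans (le_of_eq ?_)
    rw [Real.exp_neg, Real.exp_nat_mul, Real.exp_log hz0]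
  have a2 : kap K ≤ 1 := by
    unfold kap
    rw [div_le_one (by positivity)]
    linarith
  have a3 := DD_ind_le (K := K) (m := m + 1) (by omega) (by omega : m0 ≤ m + 1) hm f
  have a4 : ((m + 1 : ℕ) : ℝ) - K ≤ 2 * K * z * (m0 - K) := by
    have e : 2 * K * z = 2 * K + 2 * m / m0 := by rw [hz]; field_simp
    have b : (m : ℝ) ≤ 2 * m / m0 * (m0 - K) := by
      rw [div_mul_eq_mul_div, le_div_iff₀ hm0]
      nlinarith
    rw [e]
    push_cast
    nlinarith
  have a5 := pow_le_pow_left₀ (by push_cast; linarith) a4 (2 * K + 2)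
  have a6 : DD (ind K) f (m + 1) ≤ (2 * K * z) ^ (2 * K + 2) * DD (fun _ => 1) f m0 := by
    refine le_of_mul_le_mul_left (a3.trans ?_) (pow_pos (show (0 : ℝ) < m0 - K by linarith) _)
    rw [← mul_assoc, ← mul_pow, mul_comm ((m0 : ℝ) - K)]
    exact mul_le_mul a5 (DD_ind_one K f m0) (DD_nonneg _ _ _)
      (le_trans (pow_nonneg (by push_cast; linarith) _) a5)
  have hk := (kap_pos hK).le
  calc _ ≤ (z ^ (2 * K + 2))⁻¹ * 1 * ((2 * K * z) ^ (2 * K + 2) * DD (fun _ => 1) f m0) :=
        mul_le_mul (mul_le_mul a1 a2 hk (by positivity)) a6 (DD_nonneg _ _ _) (by positivity)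
    _ = _ := by rw [mul_pow (2 * (K : ℝ))]; field_simp

lemma PH_step {K d m : ℕ} (hK : 2 ≤ K) (hd : 2 ≤ d) (hm1 : 1 ≤ m) (hm : m < Fintype.card ι)
    {f : Finset ι → ℝ} (hf : Cls d univ f) {γ m0 : ℝ} (hγ : 0 ≤ γ) (hm0 : 0 < m0) :
    m * PH K (ell K (Real.log (3 + d ^ CC)) γ m0 (m + 1)) f (m + 1) ≤
      (m + 1) * PH K (ell K (Real.log (3 + d ^ CC)) γ m0 m) f m +
        (K * (Real.exp (ell K (Real.log (3 + d ^ CC)) γ m0 m K) * kap K * DD (ind K) f (m + 1)) +
          3 * Real.log (3 + d ^ CC)) := by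
  set M : ℝ := 3 + d ^ CC with hM
  have hM1 : 1 ≤ M := by
    have : (0 : ℝ) ≤ d ^ CC := by positivity
    linarith
  set l := ell K (Real.log M) γ m0 (m + 1) with hl
  set l' := ell K (Real.log M) γ m0 m with hl'
  have h := EE_down hm fun B => 𝔼 y, Phi K l' B (gg f B y)
  unfold PH DD
  rw [← h, ← mul_assoc, mul_expect, mul_expect, ← expect_const (PP_nonempty hm) (3 * Real.log M),
    ← expect_add_distrib, ← expect_add_distrib]
  refine expect_le_expect fun A hA => ?_
  have hAm := PP_card hA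
  rw [sum_congr rfl fun c hc => expect_gg f hc fun a => Phi K l' (A.erase c) a,
    ← expect_sum_comm, mul_expect, mul_expect, ← Fintype.expect_const (ι := ι → Bool)
      (3 * Real.log M), ← expect_add_distrib, ← expect_add_distrib]
  refine expect_le_expect fun y _ => ?_
  have h1 := step hK (A := A) (by omega) (l := l) (l' := l') hM1
    (fun i hi => (ell_nonpos hK hi.le (Real.log_nonneg hM1) hγ hm0 (by positivity)).2)
    (fun k hk hkA => by
      rw [hAm] at hkA ⊢
      push_cast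
      exact ell_W hK hk hγ hm0 (by exact_mod_cast hkA)) (gg f A y) fun c hc σ hσ => by
      obtain ⟨b, hb⟩ : ∃ b, sg b = σ := by
        rcases hσ with h | h
        exacts [⟨true, by simp [sg, h]⟩, ⟨false, by simp [sg, h]⟩]
      have h2 := gg_cls hf (A.erase c) (Function.update y c b)
      rw [gg_erase f hc, gg_update f hc, Function.update_self, hb] at h2
      refine le_trans ?_ ((Qs_le hd _ _ h2).trans (by rw [hM]; linarith))
      refine sum_le_sum fun s hs => ?_
      by_cases h3 : K < s.card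
      · rw [if_pos h3]
        by_cases h4 : s.card ≤ d
        · rw [if_pos ⟨by omega, h4⟩]
        · have h5 := h2.1 s hs (by omega)
          simp only at h5
          rw [if_neg (fun h => h4 h.2), h5, abs_zero, Real.zero_rpow (qq_pos (by omega)).ne']
      · rw [if_neg h3]
        split_ifs <;> positivity
  rw [hAm] at h1
  push_cast at h1
  rwa [add_sub_cancel_right] at h1

/-- The flow from all variables down to `m0` variables. -/
theorem flow {K d m0 : ℕ} (hK : 2 ≤ K) (hd : K < d) (h2 : 2 * K ≤ m0) (hn : m0 ≤ Fintype.card ι)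
    {f : Finset ι → ℝ} (hf : Cls d univ f) :
    (d + 1) * (vv (ell K (Real.log (3 + d ^ CC)) (2 * K + 2 : ℕ) m0 (Fintype.card ι)) d *
      ∑ S ∈ PP ι d, |f S| ^ qq d) ≤ Fintype.card ι / m0 * (DD (fun _ => 1) f m0 + 3 +
        (K * ((2 * K) ^ (2 * K + 2) * DD (fun _ => 1) f m0) + 3 * Real.log (3 + d ^ CC))) := by
  set L : ℝ := Real.log (3 + d ^ CC) with hL
  have hL0 : 0 ≤ L := Real.log_nonneg (by
    have : (0 : ℝ) ≤ d ^ CC := by positivity
    linarith)
  set src := K * ((2 * K) ^ (2 * K + 2) * DD (fun _ => 1) f m0) + 3 * L with hsrc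
  have hsrc0 : 0 ≤ src := by have := DD_nonneg (fun _ => 1) f m0; positivity
  have hm0 : (0 : ℝ) < m0 := by exact_mod_cast (show 0 < m0 by omega)
  set P : ℕ → ℝ := fun m => PH K (ell K L (2 * K + 2 : ℕ) m0 m) f m with hP
  have key : ∀ m, m0 ≤ m → m ≤ Fintype.card ι → P m + src ≤ m / m0 * (P m0 + src) := by
    intro m h0
    induction m, h0 using Nat.le_induction with
    | base => intro _; rw [div_self hm0.ne', one_mul]
    | succ m h0 ih =>
      intro hm
      have h1 := ih (by omega)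
      have h3 := PH_step hK (by omega) (by omega) hm hf (γ := (2 * K + 2 : ℕ)) (by positivity) hm0
      have h4 := mul_le_mul_of_nonneg_left (src_le hK h2 h0 hm hL0 f) (Nat.cast_nonneg (α := ℝ) K)
      have hm' : (0 : ℝ) < m := by exact_mod_cast (show 0 < m by omega)
      have h5 : m * P (m + 1) ≤ (m + 1) * P m + src := by
        simp only [hP]
        push_cast at h3 h4 ⊢
        linarith
      refine le_of_mul_le_mul_left ?_ hm'
      have h6 := mul_le_mul_of_nonneg_left h1 (show 0 ≤ (m : ℝ) + 1 by positivity)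
      push_cast
      calc _ ≤ (m + 1) * (P m + src) := by linarith
        _ ≤ _ := h6
        _ = _ := by ring
  have h1 := key _ hn le_rfl
  have h3 : P m0 ≤ DD (fun _ => 1) f m0 + 3 := by
    unfold DD
    rw [← expect_const (PP_nonempty hn) (3 : ℝ), ← expect_add_distrib]
    refine expect_le_expect fun A _ => ?_
    rw [← Fintype.expect_const (ι := ι → Bool) (3 : ℝ), ← expect_add_distrib]
    exact expect_le_expect fun y _ => Phi_le K _
      (fun i hi => (ell_nonpos hK hi.le hL0 (by positivity) hm0 (by positivity)).2) _ _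
  have h4 : (d + 1) * (vv (ell K L (2 * K + 2 : ℕ) m0 (Fintype.card ι)) d *
      ∑ S ∈ PP ι d, |f S| ^ qq d) ≤ P (Fintype.card ι) := by
    simp only [hP]
    unfold PH
    rw [EE_top]
    simp only [gg_univ, Fintype.expect_const]
    unfold Phi
    rw [sum_level, mul_sum, mul_sum]
    refine sum_le_sum fun S _ => ?_
    by_cases h5 : S.card = d
    · rw [if_pos h5, h5, if_pos hd]
    · have := vv_pos (ell K L (2 * K + 2 : ℕ) m0 (Fintype.card ι)) S.card
      rw [if_neg h5, mul_zero, mul_zero]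
      split_ifs <;> positivity
  have h5 := mul_le_mul_of_nonneg_left (add_le_add_left h3 src)
    (show 0 ≤ (Fintype.card ι : ℝ) / m0 by positivity)
  linarith

end Pool.Agent.Lib.MP_de5887_an.Ex
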