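import Pool.Agent.Lib.MP_de5887_an.Ex.Base

set_option autoImplicit false

open Finset
open scoped BigOperators

namespace Pool.Agent.Lib.MP_de5887_an.Ex

lemma one_add_le_exp {t α : ℝ} (ht : 0 ≤ t) (h0 : 0 < α) (h1 : α ≤ 1) :
    1 + t ≤ Real.exp (t ^ α / α) := by
  have h2 := Real.rpow_add_le_add_rpow zero_le_one ht h0.le h1
  have h3 := Real.log_le_sub_one_of_pos (Real.rpow_pos_of_pos (show 0 < 1 + t by linarith) α)
  rw [Real.log_rpow (by linarith)] at h3
  rw [Real.one_rpow] at h2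
  rw [← Real.log_le_iff_le_exp (by linarith), le_div_iff₀ h0]
  linarith

lemma cos_pos' {α : ℝ} (h0 : 0 < α) (h1 : α < 1) : 0 < Real.cos (Real.pi / 2 * α) :=
  Real.cos_pos_of_mem_Ioo ⟨by nlinarith [Real.pi_pos], by nlinarith [Real.pi_pos]⟩

lemma re_cpow_ge {α : ℝ} (h0 : 0 < α) (h1 : α < 1) {w : ℂ} (hw : 0 ≤ w.re) :
    ‖w‖ ^ α * Real.cos (Real.pi / 2 * α) ≤ (w ^ (α : ℂ)).re := by
  rw [Complex.cpow_ofReal_re, ← Real.cos_abs (w.arg * α), abs_mul, abs_of_pos h0]
  refine mul_le_mul_of_nonneg_left ?_ (by positivity)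
  exact Real.cos_le_cos_of_nonneg_of_le_pi (by positivity) (by nlinarith [Real.pi_pos])
    (mul_le_mul_of_nonneg_right (Complex.abs_arg_le_pi_div_two_iff.2 hw) h0.le)

lemma growth {P : ℂ → ℂ} (hP : Differentiable ℂ P) {A : ℝ} {N d : ℕ} (hd : 1 ≤ d)
    (hA : ∀ z, ‖P z‖ ≤ A * (1 + ‖z‖) ^ N) (hR : ∀ s : ℝ, ‖P s‖ ≤ max 1 |s| ^ d) {α : ℝ}
    (h0 : 0 < α) (h1 : α < 1) {σ : ℝ} (hσ : |σ| = 1) {w : ℂ} (hw : 0 ≤ w.re) :
    ‖P (1 + σ * Complex.I * w)‖ ≤ Real.exp (d / (α * Real.cos (Real.pi / 2 * α)) * ‖w‖ ^ α) := by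
  have hc := cos_pos' h0 h1
  have hd' : (0 : ℝ) < d := by exact_mod_cast hd
  set b : ℝ := d / (α * Real.cos (Real.pi / 2 * α)) with hb
  have hb0 : 0 < b := by positivity
  set G : ℂ → ℂ := fun w => P (1 + σ * Complex.I * w) * Complex.exp (-(b * w ^ (α : ℂ))) with hG
  have hn : ∀ w, ‖G w‖ = ‖P (1 + σ * Complex.I * w)‖ * Real.exp (-(b * (w ^ (α : ℂ)).re)) := by
    intro w
    simp only [hG, norm_mul, Complex.norm_exp, Complex.neg_re, Complex.re_ofReal_mul]
  have hle : ∀ w : ℂ, 0 ≤ w.re →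
      ‖G w‖ ≤ ‖P (1 + σ * Complex.I * w)‖ * Real.exp (-(d / α * ‖w‖ ^ α)) := by
    intro w hw
    rw [hn]
    refine mul_le_mul_of_nonneg_left (Real.exp_le_exp.2 (neg_le_neg ?_)) (norm_nonneg _)
    refine le_trans (le_of_eq ?_) (mul_le_mul_of_nonneg_left (re_cpow_ge h0 h1 hw) hb0.le)
    rw [hb]
    generalize Real.cos (Real.pi / 2 * α) = c at hc
    field_simp
  have hA0 : 0 ≤ A := by
    have := (norm_nonneg _).trans (hA 0)
    simpa using this
  have hbd : ∀ w : ℂ, 0 ≤ w.re → ‖G w‖ ≤ A * (2 ^ N * Real.exp (N ^ 2 / (α * d))) := by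
    intro w hw
    refine (hle w hw).trans ((mul_le_mul_of_nonneg_right (hA _) (Real.exp_pos _).le).trans ?_)
    rw [mul_assoc]
    refine mul_le_mul_of_nonneg_left ?_ hA0
    have a1 : ‖1 + σ * Complex.I * w‖ ≤ 1 + ‖w‖ := by
      refine (norm_add_le _ _).trans ?_
      simp [hσ]
    have a2 := one_add_le_exp (norm_nonneg w) (half_pos h0) (by linarith)
    have a3 : 1 + ‖1 + σ * Complex.I * w‖ ≤ 2 * Real.exp (‖w‖ ^ (α / 2) / (α / 2)) := by
      linarith [norm_nonneg w]
    refine (mul_le_mul_of_nonneg_right (pow_le_pow_left₀ (by positivity) a3 N)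
      (Real.exp_pos _).le).trans ?_
    rw [mul_pow, mul_assoc, ← Real.exp_nat_mul, ← Real.exp_add]
    refine mul_le_mul_of_nonneg_left (Real.exp_le_exp.2 ?_) (by positivity)
    have a4 : ‖w‖ ^ α = (‖w‖ ^ (α / 2)) ^ 2 := by
      rw [← Real.rpow_natCast, ← Real.rpow_mul (norm_nonneg _)]; congr 1; push_cast; ring
    rw [a4]
    set u := ‖w‖ ^ (α / 2)
    have a5 : (N : ℝ) ^ 2 / (α * d) - (N * (u / (α / 2)) + -(d / α * u ^ 2)) =
        (N - d * u) ^ 2 / (α * d) := by
      field_simp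
      ring
    have a6 : 0 ≤ (N - d * u) ^ 2 / (α * d) := by positivity
    linarith
  have hdiff : DiffContOnCl ℂ G {z | 0 < z.re} := by
    have hQ : Differentiable ℂ fun w : ℂ => P (1 + σ * Complex.I * w) := hP.comp (by fun_prop)
    refine ⟨fun w hw => ((hQ w).mul (((differentiableAt_id.cpow_const
      (Or.inl hw)).const_mul _).neg.cexp)).differentiableWithinAt, fun w hw => ?_⟩
    rw [Complex.closure_setOfPred_lt_re] at hw
    exact ((hQ w).continuousAt.mul (((Complex.continuousAt_cpow_const_of_re_pos (Or.inl hw)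
      (by simpa using h0)).const_mul _).neg.cexp)).continuousWithinAt
  have key : ‖G w‖ ≤ 1 := by
    refine PhragmenLindelof.right_half_plane_of_bounded_on_real hdiff ⟨0, two_pos, 0, ?_⟩ ?_ ?_ hw
    · refine Asymptotics.IsBigO.of_bound (A * (2 ^ N * Real.exp (N ^ 2 / (α * d))))
        (Filter.eventually_inf_principal.2 (Filter.Eventually.of_forall fun z hz => ?_))
      simpa using hbd z (le_of_lt hz)
    · exact Filter.isBoundedUnder_of_eventually_le ((Filter.eventually_ge_atTop 0).mono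
        fun x hx => hbd x (by simpa using hx))
    · intro x
      refine (hle _ (by simp)).trans ?_
      have e : 1 + σ * Complex.I * (x * Complex.I) = ((1 - σ * x : ℝ) : ℂ) := by
        push_cast
        linear_combination (σ * x : ℂ) * Complex.I_mul_I
      have a1 : max 1 |1 - σ * x| ≤ 1 + |x| := by
        refine max_le (by linarith [abs_nonneg x]) ((abs_sub _ _).trans ?_)
        simp [abs_mul, hσ]
      have a2 := a1.trans (one_add_le_exp (abs_nonneg x) h0 h1.le)
      have a3 := (hR (1 - σ * x)).trans (pow_le_pow_left₀ (by positivity) a2 d)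
      rw [e]
      refine (mul_le_mul_of_nonneg_right a3 (Real.exp_pos _).le).trans (le_of_eq ?_)
      rw [← Real.exp_nat_mul, ← Real.exp_add, Real.exp_eq_one_iff]
      simp
      ring
  rw [hn, Real.exp_neg, ← div_eq_mul_inv, div_le_one (Real.exp_pos _)] at key
  refine key.trans (Real.exp_le_exp.2 (mul_le_mul_of_nonneg_left ?_ hb0.le))
  rw [← Complex.norm_cpow_real]
  exact Complex.re_le_norm _

/-- A Markov type inequality for functions with the growth of a homogeneous polynomial. -/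
lemma harris {P : ℂ → ℂ} (hP : Differentiable ℂ P) {A : ℝ} {N d : ℕ} (hd : 1 ≤ d)
    (hA : ∀ z, ‖P z‖ ≤ A * (1 + ‖z‖) ^ N) (hR : ∀ s : ℝ, ‖P s‖ ≤ max 1 |s| ^ d) {α : ℝ}
    (h0 : 0 < α) (h1 : α < 1) :
    ‖deriv P 1‖ ≤ Real.exp (1 / (α * Real.cos (Real.pi / 2 * α))) * d ^ (1 / α) := by
  have hd' : (0 : ℝ) < d := by exact_mod_cast hd
  have h := Complex.norm_deriv_le_of_forall_mem_sphere_norm_le (c := 1) (R := (d ^ (1 / α))⁻¹)
    (C := Real.exp (1 / (α * Real.cos (Real.pi / 2 * α)))) (by positivity) hP.diffContOnCl ?_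
  · rwa [div_inv_eq_mul] at h
  intro z hz
  rw [mem_sphere_iff_norm] at hz
  obtain ⟨σ, hσ, hs⟩ : ∃ σ : ℝ, |σ| = 1 ∧ 0 ≤ σ * (z - 1).im := by
    rcases le_total 0 (z - 1).im with h | h
    exacts [⟨1, by simp, by linarith⟩, ⟨-1, by simp, by linarith⟩]
  have hσ2 : (σ : ℂ) * σ = 1 := by
    have : σ * σ = 1 := by rw [← abs_mul_abs_self, hσ, mul_one]
    exact_mod_cast this
  have h2 := growth hP hd hA hR h0 h1 hσ (w := -(σ * Complex.I) * (z - 1)) (by simpa using hs)
  have e : 1 + σ * Complex.I * (-(σ * Complex.I) * (z - 1)) = z := by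
    linear_combination (-(z - 1) * σ * σ) * Complex.I_mul_I + (z - 1) * hσ2
  have e2 : ‖-(σ * Complex.I) * (z - 1)‖ = ((d : ℝ) ^ (1 / α))⁻¹ := by
    rw [← hz]; simp [hσ]
  rw [e, e2, Real.inv_rpow (by positivity), ← Real.rpow_mul hd'.le, one_div_mul_cancel h0.ne',
    Real.rpow_one] at h2
  refine h2.trans (le_of_eq ?_)
  congr 1
  field_simp

variable {ι : Type*} [DecidableEq ι] [Fintype ι]

lemma abs_dj_le {d : ℕ} {f : Finset ι → ℝ} (hf : Cls d univ f) (j : ι) (z : ι → Bool) :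
    |dj f j z| ≤ 1 := by
  have key : ∀ b, |ev (univ.erase j) f z + sg b * dj f j z| ≤ 1 := by
    intro b
    have := hf.2 (Function.update z j b)
    rwa [← insert_erase (mem_univ j), ev_insert (notMem_erase j univ),
      ev_update (notMem_erase j univ), ev_update (notMem_erase j univ), Function.update_self] at this
  have h1 := abs_le.1 (key true)
  have h2 := abs_le.1 (key false)
  simp only [sg, if_true, Bool.false_eq_true, if_false] at h1 h2
  rw [abs_le]
  constructor <;> linarith [h1.1, h1.2, h2.1, h2.2]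

lemma abs_sum_dj_le {d : ℕ} (hd : 1 ≤ d) {f : Finset ι → ℝ} (hf : Cls d univ f)
    (hf' : ∀ S, S.card ≠ d → f S = 0) {α : ℝ} (h0 : 0 < α) (h1 : α < 1) (z : ι → Bool)
    (J : Finset ι) : |∑ j ∈ J, sg (z j) * dj f j z| ≤
      Real.exp (1 / (α * Real.cos (Real.pi / 2 * α))) * d ^ (1 / α) := by
  set c : Finset ι → ℝ := fun T => f T * ∏ i ∈ T, sg (z i) with hc
  set P : ℂ → ℂ := fun s => ∑ T ∈ (univ : Finset ι).powerset, c T * s ^ (T ∩ J).card with hP
  have hder : HasDerivAt P (∑ T ∈ (univ : Finset ι).powerset,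
      c T * ((T ∩ J).card * 1 ^ ((T ∩ J).card - 1))) 1 :=
    HasDerivAt.fun_sum fun T _ => (hasDerivAt_pow _ _).const_mul _
  have hmev : ∀ s t : ℝ, mev univ f (fun i => (if i ∈ J then s else 1) * (t * sg (z i))) =
      t ^ d * ∑ T ∈ (univ : Finset ι).powerset, c T * s ^ (T ∩ J).card := by
    intro s t
    unfold mev
    rw [mul_sum]
    refine sum_congr rfl fun T _ => ?_
    by_cases h : T.card = d
    · rw [prod_mul_distrib, prod_mul_distrib, prod_ite_mem, prod_const, prod_const, h]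
      simp only [hc]
      ring
    · simp [hc, hf' T h]
  have h := harris (P := P) (by simp only [hP]; fun_prop)
    (A := ∑ T ∈ (univ : Finset ι).powerset, |c T|) (N := Fintype.card ι) hd (fun s => by
      rw [sum_mul]
      refine (norm_sum_le _ _).trans (sum_le_sum fun T _ => ?_)
      rw [norm_mul, norm_pow, Complex.norm_real, Real.norm_eq_abs]
      refine mul_le_mul_of_nonneg_left ?_ (abs_nonneg _)
      exact (pow_le_pow_left₀ (norm_nonneg _) (by linarith) _).trans
        (pow_le_pow_right₀ (by linarith [norm_nonneg s]) (card_le_univ _))) (fun s => by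
      have e : P s = ((∑ T ∈ (univ : Finset ι).powerset, c T * s ^ (T ∩ J).card : ℝ) : ℂ) := by
        simp only [hP]
        push_cast
        rfl
      rw [e, Complex.norm_real, Real.norm_eq_abs]
      have hm : 0 < max 1 |s| := lt_max_of_lt_left one_pos
      have h2 := abs_mev_le univ f hf.2
        (z := fun i => (if i ∈ J then s else 1) * ((max 1 |s|)⁻¹ * sg (z i))) fun i => by
          rw [abs_mul, abs_mul, abs_sg, mul_one, abs_of_pos (inv_pos.2 hm), ← div_eq_mul_inv,
            div_le_one hm]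
          split_ifs
          exacts [le_max_right _ _, by simp]
      rwa [hmev, abs_mul, abs_of_pos (by positivity), inv_pow, ← div_eq_inv_mul,
        div_le_one (by positivity)] at h2) h0 h1
  rw [hder.deriv] at h
  refine le_trans (le_of_eq ?_) h
  rw [← Real.norm_eq_abs, ← Complex.norm_real]
  congr 1
  have e : ∑ j ∈ J, sg (z j) * dj f j z =
      ∑ T ∈ (univ : Finset ι).powerset, c T * (T ∩ J).card := by
    have e1 : ∀ T ∈ (univ : Finset ι).powerset, c T * (T ∩ J).card =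
        ∑ j ∈ T, if j ∈ J then c T else 0 := by
      intro T _
      rw [sum_ite_mem, sum_const, nsmul_eq_mul, mul_comm]
    rw [sum_congr rfl e1, sum_mem_pairs]
    simp only [sum_ite_irrel, sum_const_zero]
    rw [sum_ite_mem, univ_inter]
    refine sum_congr rfl fun j _ => ?_
    unfold dj ev mev
    rw [mul_sum]
    refine sum_congr rfl fun t ht => ?_
    simp only [hc]
    rw [prod_insert fun h => notMem_erase j univ (mem_powerset.1 ht h)]
    ring
  rw [e]
  push_cast
  simp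

/-- The total influence of a bounded homogeneous polynomial is almost linear in the degree. -/
theorem sum_abs_dj_le {d : ℕ} (hd : 1 ≤ d) {f : Finset ι → ℝ} (hf : Cls d univ f)
    (hf' : ∀ S, S.card ≠ d → f S = 0) {α : ℝ} (h0 : 0 < α) (h1 : α < 1) (z : ι → Bool) :
    ∑ j, |dj f j z| ≤ 2 * (Real.exp (1 / (α * Real.cos (Real.pi / 2 * α))) * d ^ (1 / α)) := by
  have a1 := abs_le.1 (abs_sum_dj_le hd hf hf' h0 h1 z
    (univ.filter fun j => 0 ≤ sg (z j) * dj f j z))
  have a2 := abs_le.1 (abs_sum_dj_le hd hf hf' h0 h1 z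
    (univ.filter fun j => ¬ 0 ≤ sg (z j) * dj f j z))
  have e : ∑ j, |dj f j z| = ∑ j ∈ univ.filter fun j => 0 ≤ sg (z j) * dj f j z,
      sg (z j) * dj f j z - ∑ j ∈ univ.filter fun j => ¬ 0 ≤ sg (z j) * dj f j z,
        sg (z j) * dj f j z := by
    rw [sum_filter, sum_filter, ← sum_sub_distrib]
    refine sum_congr rfl fun j _ => ?_
    rw [← one_mul |dj f j z|, ← abs_sg (z j), ← abs_mul]
    by_cases h : 0 ≤ sg (z j) * dj f j z
    · rw [if_pos h, if_neg (not_not.2 h), abs_of_nonneg h, sub_zero]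
    · rw [if_neg h, if_pos h, abs_of_neg (not_le.1 h), zero_sub]
  linarith [a1.2, a2.1]

end Pool.Agent.Lib.MP_de5887_an.Ex
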