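import Pool.Agent.Lib.MP_de5887_an.Ex.TwoPt

set_option autoImplicit false

open Finset
open scoped BigOperators

namespace Pool.Agent.Lib.MP_de5887_an.Ex

variable {ι : Type*} [DecidableEq ι]

/-- A Loomis-Whitney inequality on the Boolean lattice. -/
theorem lw (A : Finset ι) {p : ℝ} (hp : 0 ≤ p) (hA : ((A.card : ℝ) - 1) * p = 1) (B : Finset ι)
    (hB : B ⊆ A) (F : ι → Finset ι → ℝ) (hF : ∀ c s, 0 ≤ F c s) :
    ∑ S ∈ B.powerset, ∏ c ∈ A, F c (S.erase c) ^ p ≤
      ∏ c ∈ A, (∑ s ∈ (B.erase c).powerset, F c s) ^ p := by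
  induction B using Finset.induction_on generalizing F with
  | empty => simp
  | insert b B hb ih =>
    have hbA : b ∈ A := hB (mem_insert_self b B)
    set F' : ι → Finset ι → ℝ := fun c s => if c = b then F c s else F c s + F c (insert b s)
      with hF'
    have hF'0 : ∀ c s, 0 ≤ F' c s := fun c s => by
      simp only [hF']
      split_ifs
      · exact hF c s
      · exact add_nonneg (hF c s) (hF c _)
    have h1 := ih ((subset_insert b B).trans hB) F' hF'0
    have e1 : ∏ c ∈ A, (∑ s ∈ (B.erase c).powerset, F' c s) ^ p =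
        ∏ c ∈ A, (∑ s ∈ ((insert b B).erase c).powerset, F c s) ^ p := by
      refine prod_congr rfl fun c _ => ?_
      congr 1
      by_cases h : c = b
      · subst h
        rw [erase_insert hb, erase_eq_of_notMem hb]
        simp [hF']
      · rw [erase_insert_of_ne (Ne.symm h),
          sum_powerset_insert (fun h' => hb (mem_of_mem_erase h')), ← sum_add_distrib]
        simp [hF', h]
    rw [← e1, sum_powerset_insert hb, ← sum_add_distrib]
    refine le_trans (sum_le_sum fun S hS => ?_) h1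
    have hbS : b ∉ S := fun h => hb (mem_powerset.1 hS h)
    rw [← mul_prod_erase A _ hbA, ← mul_prod_erase A _ hbA, ← mul_prod_erase A _ hbA,
      erase_insert hbS, erase_eq_of_notMem hbS, ← mul_add]
    simp only [hF', if_true]
    refine mul_le_mul_of_nonneg_left ?_ (Real.rpow_nonneg (hF _ _) _)
    have h2 := gm_add (A.erase b) (fun _ => p) (fun c => F c (S.erase c))
      (fun c => F c (insert b (S.erase c))) (fun _ _ => hp)
      (by rw [sum_const, card_erase_of_mem hbA, nsmul_eq_mul,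
            Nat.cast_sub (card_pos.2 ⟨b, hbA⟩), Nat.cast_one, hA])
      (fun c _ => hF _ _) (fun c _ => hF _ _)
    refine le_trans (le_of_eq ?_) (h2.trans (le_of_eq ?_))
    · congr 1
      exact prod_congr rfl fun c hc => by rw [erase_insert_of_ne (ne_of_mem_erase hc).symm]
    · exact prod_congr rfl fun c hc => by rw [if_neg (ne_of_mem_erase hc)]

/-- Minkowski's inequality for finite sums. -/
lemma mink {α β : Type*} (C : Finset α) (T : Finset β) (x : α → β → ℝ) :
    √(∑ t ∈ T, (∑ c ∈ C, x c t) ^ 2) ≤ ∑ c ∈ C, √(∑ t ∈ T, x c t ^ 2) := by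
  set N := √(∑ t ∈ T, (∑ c ∈ C, x c t) ^ 2) with hN
  have h0 : 0 ≤ ∑ t ∈ T, (∑ c ∈ C, x c t) ^ 2 := sum_nonneg fun _ _ => sq_nonneg _
  have h1 : N * N ≤ N * ∑ c ∈ C, √(∑ t ∈ T, x c t ^ 2) := by
    rw [hN, Real.mul_self_sqrt h0, mul_sum]
    calc ∑ t ∈ T, (∑ c ∈ C, x c t) ^ 2 = ∑ c ∈ C, ∑ t ∈ T, (∑ c ∈ C, x c t) * x c t := by
          rw [sum_comm]
          exact sum_congr rfl fun t _ => by rw [← mul_sum, sq]
      _ ≤ _ := sum_le_sum fun c _ => Real.sum_mul_le_sqrt_mul_sqrt T _ _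
  have hN0 : 0 ≤ N := Real.sqrt_nonneg _
  rcases hN0.eq_or_lt with h | h
  · rw [← h]; exact sum_nonneg fun _ _ => Real.sqrt_nonneg _
  · exact le_of_mul_le_mul_left h1 h

/-- Double counting of pairs of a set and one of its points. -/
lemma sum_mem_pairs (A : Finset ι) (G : ι → Finset ι → ℝ) :
    ∑ S ∈ A.powerset, ∑ c ∈ S, G c S = ∑ c ∈ A, ∑ s ∈ (A.erase c).powerset, G c (insert c s) := by
  have e : ∀ S ∈ A.powerset, ∑ c ∈ S, G c S = ∑ c ∈ A, if c ∈ S then G c S else 0 := by
    intro S hS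
    rw [← sum_filter, filter_mem_eq_inter, inter_eq_right.2 (mem_powerset.1 hS)]
  rw [sum_congr rfl e, sum_comm]
  refine sum_congr rfl fun c hc => ?_
  conv_lhs => rw [← insert_erase hc]
  rw [sum_powerset_insert (notMem_erase c A), sum_eq_zero, zero_add]
  · exact sum_congr rfl fun s _ => if_pos (mem_insert_self c s)
  · exact fun s hs => if_neg fun h => notMem_erase c A (mem_powerset.1 hs h)

omit [DecidableEq ι] in
lemma sum_prod_le_three (A : Finset ι) (h : ι → ℝ) (h0 : ∀ j, 0 ≤ h j) (h1 : ∑ j ∈ A, h j ≤ 1) :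
    ∑ S ∈ A.powerset, ∏ j ∈ S, h j ≤ 3 := by
  rw [← prod_one_add]
  calc ∏ j ∈ A, (1 + h j) ≤ ∏ j ∈ A, Real.exp (h j) :=
        prod_le_prod (fun j _ => by linarith [h0 j])
          fun j _ => by linarith [Real.add_one_le_exp (h j)]
    _ = Real.exp (∑ j ∈ A, h j) := (Real.exp_sum _ _).symm
    _ ≤ Real.exp 1 := Real.exp_le_exp.2 h1
    _ ≤ 3 := by linarith [Real.exp_one_lt_d9]

lemma log_tangent {t τ : ℝ} (ht : 0 < t) (hτ : 0 < τ) :
    τ * (1 + Real.log t - Real.log τ) ≤ t := by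
  have h := Real.log_le_sub_one_of_pos (div_pos ht hτ)
  rw [Real.log_div ht.ne' hτ.ne'] at h
  have h2 := mul_le_mul_of_nonneg_left h hτ.le
  rw [mul_sub τ (t / τ), mul_div_cancel₀ _ hτ.ne'] at h2
  linarith

end Pool.Agent.Lib.MP_de5887_an.Ex
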