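import Pool.Agent.Lib.MP_de5887_an.Ex.LW

set_option autoImplicit false

open Finset
open scoped BigOperators

namespace Pool.Agent.Lib.MP_de5887_an.Ex

variable {ι : Type*} [DecidableEq ι]

/-- The constant of the two point inequality at level `i`. -/
noncomputable def kap (i : ℕ) : ℝ := ((i : ℝ) - 1) / ((i : ℝ) + 1)

lemma kap_pos {i : ℕ} (hi : 2 ≤ i) : 0 < kap i := by
  have : (2 : ℝ) ≤ i := by exact_mod_cast hi
  exact div_pos (by linarith) (by linarith)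

lemma qq_sub (i : ℕ) : qq i - 1 = kap i := by
  unfold qq kap
  field_simp
  ring

lemma qq_half (i : ℕ) : qq i / 2 = (i : ℝ) / ((i : ℝ) + 1) := by
  unfold qq
  field_simp

/-- The weight at level `i`. -/
noncomputable def vv (l : ℕ → ℝ) (i : ℕ) : ℝ := Real.exp ((i : ℝ) / ((i : ℝ) + 1) * l i)

lemma vv_pos (l : ℕ → ℝ) (i : ℕ) : 0 < vv l i := Real.exp_pos _

/-- The weighted sum over the levels above `K`. -/
noncomputable def Phi (K : ℕ) (l : ℕ → ℝ) (A : Finset ι) (a : Finset ι → ℝ) : ℝ :=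
  ∑ S ∈ A.powerset, if K < S.card then ((S.card : ℝ) + 1) * (vv l S.card * |a S| ^ qq S.card) else 0

/-- Weighted square norm of one discrete derivative. -/
noncomputable def Rw (ρ : ℕ → ℝ) (A : Finset ι) (a : Finset ι → ℝ) (j : ι) : ℝ :=
  ∑ t ∈ (A.erase j).powerset, ρ t.card * a (insert j t) ^ 2

/-- The mixed norm. -/
noncomputable def Nw (ρ : ℕ → ℝ) (A : Finset ι) (a : Finset ι → ℝ) : ℝ := ∑ j ∈ A, √(Rw ρ A a j)

lemma Nw_nonneg (ρ : ℕ → ℝ) (A : Finset ι) (a : Finset ι → ℝ) : 0 ≤ Nw ρ A a :=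
  sum_nonneg fun _ _ => Real.sqrt_nonneg _

lemma Rw_nonneg {ρ : ℕ → ℝ} (hρ : ∀ i, 0 ≤ ρ i) (A : Finset ι) (a : Finset ι → ℝ) (j : ι) :
    0 ≤ Rw ρ A a j := sum_nonneg fun _ _ => mul_nonneg (hρ _) (sq_nonneg _)

lemma le_Rw {ρ : ℕ → ℝ} (hρ : ∀ i, 0 ≤ ρ i) {A S : Finset ι} (a : Finset ι → ℝ) {j : ι}
    (hS : S ⊆ A) (hj : j ∈ S) : ρ (S.erase j).card * a S ^ 2 ≤ Rw ρ A a j := by
  have := single_le_sum (f := fun t => ρ t.card * a (insert j t) ^ 2)
    (fun t _ => mul_nonneg (hρ _) (sq_nonneg _)) (mem_powerset.2 (erase_subset_erase j hS))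
  simp only [insert_erase hj] at this
  exact this

/-- Normalised derivative norms. -/
noncomputable def hh (ρ : ℕ → ℝ) (A : Finset ι) (a : Finset ι → ℝ) (j : ι) : ℝ :=
  √(Rw ρ A a j) / Nw ρ A a

lemma hh_nonneg (ρ : ℕ → ℝ) (A : Finset ι) (a : Finset ι → ℝ) (j : ι) : 0 ≤ hh ρ A a j :=
  div_nonneg (Real.sqrt_nonneg _) (Nw_nonneg _ _ _)

lemma sum_hh (ρ : ℕ → ℝ) (A : Finset ι) (a : Finset ι → ℝ) : ∑ j ∈ A, hh ρ A a j ≤ 1 := by
  unfold hh
  rw [← sum_div]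
  exact div_self_le_one _

lemma hh_pos {ρ : ℕ → ℝ} {A : Finset ι} {a : Finset ι → ℝ} {j : ι} (hj : j ∈ A)
    (h : 0 < Rw ρ A a j) : 0 < hh ρ A a j := by
  have h1 := Real.sqrt_pos.2 h
  refine div_pos h1 (h1.trans_le ?_)
  exact single_le_sum (f := fun j => √(Rw ρ A a j)) (fun _ _ => Real.sqrt_nonneg _) hj

lemma sum_Rw_div {ρ : ℕ → ℝ} (hρ : ∀ i, 0 ≤ ρ i) (A : Finset ι) (a : Finset ι → ℝ) :
    ∑ j ∈ A, Rw ρ A a j / hh ρ A a j ≤ Nw ρ A a ^ 2 := by
  have h : ∀ j ∈ A, Rw ρ A a j / hh ρ A a j ≤ √(Rw ρ A a j) * Nw ρ A a := by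
    intro j _
    rcases (Rw_nonneg hρ A a j).eq_or_lt with h0 | h0
    · rw [← h0]; simp
    · have h1 := Real.sqrt_pos.2 h0
      unfold hh
      rw [div_div_eq_mul_div, div_le_iff₀ h1]
      rw [mul_right_comm, Real.mul_self_sqrt h0.le]
  refine (sum_le_sum h).trans (le_of_eq ?_)
  rw [← sum_mul, sq]
  rfl

omit [DecidableEq ι] in
lemma pt_abs (A : Finset ι) (wt T F : ι → ℝ) {p M τ k : ℝ} (hτ : 0 < τ) (hM : 0 < M)
    (hT : ∀ c ∈ A, 0 < T c) (hF : ∀ c ∈ A, 0 < F c) (hw : ∀ c ∈ A, 0 ≤ wt c)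
    (hk : ∑ c ∈ A, wt c = k)
    (hlog : (k + 1) * Real.log τ ≤
      ∑ c ∈ A, (wt c * Real.log (T c) + p * Real.log (F c)) - p * Real.log M) :
    (k + 1) * τ ≤ ∑ c ∈ A, wt c * T c + (∏ c ∈ A, F c ^ p) * M ^ (-p) := by
  have hP : 0 < ∏ c ∈ A, F c ^ p := prod_pos fun c hc => Real.rpow_pos_of_pos (hF c hc) _
  have hQ : 0 < M ^ (-p) := Real.rpow_pos_of_pos hM _
  have h1 := log_tangent (mul_pos hP hQ) hτ
  rw [Real.log_mul hP.ne' hQ.ne', Real.log_rpow hM,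
    Real.log_prod fun c hc => (Real.rpow_pos_of_pos (hF c hc) _).ne',
    sum_congr rfl fun c hc => Real.log_rpow (hF c hc) p] at h1
  have h2 : ∑ c ∈ A, wt c * (τ * (1 + Real.log (T c) - Real.log τ)) ≤ ∑ c ∈ A, wt c * T c :=
    sum_le_sum fun c hc => mul_le_mul_of_nonneg_left (log_tangent (hT c hc) hτ) (hw c hc)
  have h3 : ∑ c ∈ A, wt c * (τ * (1 + Real.log (T c) - Real.log τ)) =
      τ * (k * (1 - Real.log τ) + ∑ c ∈ A, wt c * Real.log (T c)) := by
    rw [← hk, sum_mul, ← sum_add_distrib, mul_sum]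
    exact sum_congr rfl fun c _ => by ring
  rw [sum_add_distrib] at hlog
  have h4 := mul_le_mul_of_nonneg_left hlog hτ.le
  nlinarith

omit [DecidableEq ι] in
lemma prod_le_avg (A : Finset ι) (x : ι → ℝ) {p M : ℝ} (hp : 0 < p)
    (hA : ((A.card : ℝ) - 1) * p = 1) (hM : 0 < M) (hx : ∀ c ∈ A, 0 ≤ x c)
    (hxM : ∀ c ∈ A, x c ≤ M) :
    (∏ c ∈ A, x c ^ p) * M ^ (-p) ≤ (∑ c ∈ A, x c) / A.card := by
  have hm : (1 : ℝ) < A.card := by
    by_contra h
    push Not at h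
    nlinarith
  have hm0 : (0 : ℝ) < A.card := by linarith
  set μ := (∑ c ∈ A, x c) / A.card with hμ
  have h1 := Real.geom_mean_le_arith_mean_weighted A (fun _ => 1 / (A.card : ℝ)) x
    (fun _ _ => by positivity) (by rw [sum_const, nsmul_eq_mul]; field_simp) hx
  rw [← mul_sum, one_div_mul_eq_div, ← hμ] at h1
  have hμ0 : 0 ≤ μ := div_nonneg (sum_nonneg hx) hm0.le
  have hμM : μ ≤ M := by
    rw [hμ, div_le_iff₀ hm0, mul_comm, ← nsmul_eq_mul, ← sum_const]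
    exact sum_le_sum hxM
  have e : ∏ c ∈ A, x c ^ p = (∏ c ∈ A, x c ^ (1 / (A.card : ℝ))) ^ (1 + p) := by
    rw [← Real.finsetProd_rpow _ _ fun c hc => Real.rpow_nonneg (hx c hc) _]
    refine prod_congr rfl fun c hc => ?_
    rw [← Real.rpow_mul (hx c hc)]
    congr 1
    field_simp
    linarith
  have h2 : ∏ c ∈ A, x c ^ p ≤ μ * M ^ p := by
    rw [e]
    calc _ ≤ μ ^ (1 + p) :=
          Real.rpow_le_rpow (prod_nonneg fun c hc => Real.rpow_nonneg (hx c hc) _) h1 (by linarith)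
      _ = μ * μ ^ p := by rw [Real.rpow_add' hμ0 (by linarith), Real.rpow_one]
      _ ≤ _ := mul_le_mul_of_nonneg_left (Real.rpow_le_rpow hμ0 hμM hp.le) hμ0
  rw [Real.rpow_neg hM.le, ← div_eq_mul_inv, div_le_iff₀ (Real.rpow_pos_of_pos hM _)]
  exact h2

lemma prod_erase_rpow {A S : Finset ι} (hS : S ⊆ A) (h : ι → ℝ) (h0 : ∀ j, 0 ≤ h j) {p : ℝ}
    (hA : ((A.card : ℝ) - 1) * p = 1) :
    ∏ c ∈ A, (∏ j ∈ S.erase c, h j) ^ p = ∏ j ∈ S, h j := by
  rw [Real.finsetProd_rpow _ _ fun c _ => prod_nonneg fun j _ => h0 j]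
  have e : ∀ c ∈ A, ∏ j ∈ S.erase c, h j = ∏ j ∈ S, if j ≠ c then h j else 1 := by
    intro c _
    rw [← prod_filter, filter_ne']
  rw [prod_congr rfl e, prod_comm, ← Real.finsetProd_rpow _ _ fun j _ =>
    prod_nonneg fun c _ => by split_ifs; exacts [h0 j, zero_le_one]]
  refine prod_congr rfl fun j hj => ?_
  rw [← prod_filter, filter_ne, prod_const, card_erase_of_mem (hS hj), ← Real.rpow_natCast,
    ← Real.rpow_mul (h0 j), Nat.cast_sub (card_pos.2 ⟨j, hS hj⟩), Nat.cast_one, hA, Real.rpow_one]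

lemma sum_erase_sum (S : Finset ι) (u : ι → ℝ) :
    ∑ c ∈ S, ∑ j ∈ S.erase c, u j = ((S.card : ℝ) - 1) * ∑ j ∈ S, u j := by
  rw [sum_congr rfl fun c hc => sum_erase_eq_sub (f := u) hc, sum_sub_distrib, sum_const,
    nsmul_eq_mul]
  ring

/-- The crude bound used at the smallest scale. -/
theorem Phi_le (K : ℕ) (l : ℕ → ℝ) (hl : ∀ i, K < i → l i ≤ 0) (A : Finset ι)
    (a : Finset ι → ℝ) : Phi K l A a ≤ Nw (fun _ => 1) A a ^ 2 + 3 := by
  set h := hh (fun _ => 1) A a with hhdef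
  have h0 : ∀ j, 0 ≤ h j := hh_nonneg _ _ _
  have hpt : ∀ S ∈ A.powerset, (if K < S.card then
      ((S.card : ℝ) + 1) * (vv l S.card * |a S| ^ qq S.card) else 0) ≤
      ∑ j ∈ S, a S ^ 2 / h j + ∏ j ∈ S, h j := by
    intro S hS
    have hS' := mem_powerset.1 hS
    have hn : 0 ≤ ∑ j ∈ S, a S ^ 2 / h j + ∏ j ∈ S, h j :=
      add_nonneg (sum_nonneg fun j _ => div_nonneg (sq_nonneg _) (h0 j)) (prod_nonneg fun j _ => h0 j)
    split_ifs with hK
    swap
    · exact hn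
    have hk1 : 1 ≤ S.card := by omega
    by_cases ha : a S = 0
    · rw [ha, abs_zero, Real.zero_rpow (qq_pos hk1).ne', mul_zero, mul_zero, ← ha]
      simpa [ha] using hn
    have hpos : ∀ j ∈ S, 0 < h j := fun j hj =>
      hh_pos (hS' hj) (lt_of_lt_of_le (by positivity) (le_Rw (fun _ => zero_le_one) a hS' hj))
    have hv : vv l S.card ≤ 1 := Real.exp_le_one_iff.2
      (mul_nonpos_of_nonneg_of_nonpos (by positivity) (hl _ hK))
    have habs := abs_pos.2 ha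
    have hτ : 0 < |a S| ^ qq S.card := Real.rpow_pos_of_pos habs _
    have h1 := pt_abs S (fun _ => 1) (fun j => a S ^ 2 / h j) h (p := 1) (M := 1) hτ one_pos
      (fun j hj => div_pos (by positivity) (hpos j hj)) hpos (fun _ _ => zero_le_one)
      (k := S.card) (by simp) (by
        rw [Real.log_rpow habs, sum_congr rfl fun j hj => by
          rw [Real.log_div (by positivity) (hpos j hj).ne', ← sq_abs, Real.log_pow]]
        simp only [one_mul, sub_add_cancel, sum_const, nsmul_eq_mul, Real.log_one, mul_zero,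
          sub_zero]
        unfold qq
        apply le_of_eq
        push_cast
        field_simp)
    simp only [one_mul, Real.rpow_one, Real.one_rpow, mul_one] at h1
    exact le_trans (mul_le_mul_of_nonneg_left (mul_le_of_le_one_left hτ.le hv) (by positivity)) h1
  refine (sum_le_sum hpt).trans ?_
  rw [sum_add_distrib, sum_mem_pairs]
  refine add_le_add (le_trans (le_of_eq ?_) (sum_Rw_div (fun _ => zero_le_one) A a))
    (sum_prod_le_three A h h0 (sum_hh _ _ _))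
  refine sum_congr rfl fun j _ => ?_
  unfold Rw
  rw [sum_div]
  simp [hhdef]

end Pool.Agent.Lib.MP_de5887_an.Ex
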