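import Pool.Agent.Lib.MP_de5887_an.Ex.Point

set_option autoImplicit false

open Finset
open scoped BigOperators

namespace Pool.Agent.Lib.MP_de5887_an.Ex

variable {ι : Type*} [DecidableEq ι]

/-- Indicator of one level. -/
def ind (K : ℕ) (i : ℕ) : ℝ := if i = K then 1 else 0

lemma ind_nonneg (K i : ℕ) : 0 ≤ ind K i := by unfold ind; split_ifs <;> norm_num

/-- Row sums in direction `c`. -/
noncomputable def rr (a : Finset ι → ℝ) (c : ι) (s : Finset ι) : ℝ :=
  a s ^ 2 + kap s.card * a (insert c s) ^ 2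

lemma rr_nonneg (a : Finset ι → ℝ) (c : ι) {s : Finset ι} (hs : 2 ≤ s.card) : 0 ≤ rr a c s :=
  add_nonneg (sq_nonneg _) (mul_nonneg (kap_pos hs).le (sq_nonneg _))

/-- Projected masses. -/
noncomputable def FF (K : ℕ) (l : ℕ → ℝ) (h : ι → ℝ) (a : Finset ι → ℝ) (c : ι) (s : Finset ι) : ℝ :=
  if K < s.card then vv l s.card * rr a c s ^ ((s.card : ℝ) / ((s.card : ℝ) + 1)) else ∏ j ∈ s, h j

/-- Lifted masses. -/
noncomputable def TT (K : ℕ) (l : ℕ → ℝ) (h : ι → ℝ) (a : Finset ι → ℝ) (c : ι) (S : Finset ι) : ℝ :=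
  if K < (S.erase c).card then vv l (S.erase c).card *
    ((if c ∈ S then kap (S.erase c).card else 1) * a S ^ 2) *
      rr a c (S.erase c) ^ (-1 / (((S.erase c).card : ℝ) + 1))
  else if (S.erase c).card = K ∧ c ∈ S then Real.exp (l K) * kap K * a S ^ 2 / h c else 0

lemma FF_nonneg {K : ℕ} (hK : 2 ≤ K) (l : ℕ → ℝ) {h : ι → ℝ} (h0 : ∀ j, 0 ≤ h j)
    (a : Finset ι → ℝ) (c : ι) (s : Finset ι) : 0 ≤ FF K l h a c s := by
  unfold FF
  split_ifs with h1
  · exact mul_nonneg (vv_pos _ _).le (Real.rpow_nonneg (rr_nonneg a c (by omega)) _)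
  · exact prod_nonneg fun j _ => h0 j

lemma TT_nonneg {K : ℕ} (hK : 2 ≤ K) (l : ℕ → ℝ) {h : ι → ℝ} (h0 : ∀ j, 0 ≤ h j)
    (a : Finset ι → ℝ) (c : ι) (S : Finset ι) : 0 ≤ TT K l h a c S := by
  unfold TT
  by_cases h1 : K < (S.erase c).card
  · rw [if_pos h1]
    have h2 := (kap_pos (show 2 ≤ (S.erase c).card by omega)).le
    refine mul_nonneg (mul_nonneg (vv_pos _ _).le (mul_nonneg ?_ (sq_nonneg _)))
      (Real.rpow_nonneg (rr_nonneg a c (by omega)) _)
    split_ifs
    exacts [h2, zero_le_one]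
  · rw [if_neg h1]
    have h2 := (kap_pos hK).le
    have h3 := h0 c
    split_ifs
    · positivity
    · exact le_rfl

lemma log_row (l : ℕ → ℝ) (i : ℕ) {κ α r : ℝ} (p : ℝ) (hκ : 0 < κ) (hα : α ≠ 0) (hr : 0 < r) :
    (i : ℝ) * p * Real.log (vv l i * (κ * α ^ 2) * r ^ (-1 / ((i : ℝ) + 1))) +
      p * Real.log (vv l i * r ^ ((i : ℝ) / ((i : ℝ) + 1))) =
      p * (i * (l i + Real.log κ + 2 * Real.log |α|)) := by
  have hv := vv_pos l i
  rw [Real.log_mul (by positivity) (by positivity), Real.log_mul hv.ne' (by positivity),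
    Real.log_mul hκ.ne' (by positivity), Real.log_mul hv.ne' (by positivity), Real.log_rpow hr,
    Real.log_rpow hr, Real.log_pow, Real.log_abs]
  unfold vv
  rw [Real.log_exp]
  push_cast
  field_simp
  ring

lemma pt_step {K : ℕ} (hK : 2 ≤ K) {A S : Finset ι} (hS : S ⊆ A) (hKS : K < S.card)
    {l l' : ℕ → ℝ} {p M : ℝ} (hp : 0 < p) (hA : ((A.card : ℝ) - 1) * p = 1) (hM : 0 < M)
    (hW : ((A.card : ℝ) - 1) * (S.card * l S.card) ≤ (A.card - S.card) * (S.card * l' S.card) +
      S.card * ((S.card - 1) * (l' (S.card - 1) + Real.log (kap (S.card - 1)))) - Real.log M)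
    {h : ι → ℝ} (h0 : ∀ j, 0 ≤ h j) (a : Finset ι → ℝ)
    (hpos : a S ≠ 0 → S.card = K + 1 → ∀ j ∈ S, 0 < h j) :
    ((S.card : ℝ) + 1) * (vv l S.card * |a S| ^ qq S.card) ≤
      ∑ c ∈ A, ((S.erase c).card * p) * TT K l' h a c S +
        (∏ c ∈ A, FF K l' h a c (S.erase c) ^ p) * M ^ (-p) := by
  by_cases ha : a S = 0
  · rw [ha, abs_zero, Real.zero_rpow (qq_pos (by omega)).ne', mul_zero, mul_zero]
    exact add_nonneg (sum_nonneg fun c _ => mul_nonneg (by positivity) (TT_nonneg hK _ h0 _ _ _))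
      (mul_nonneg (prod_nonneg fun c _ => Real.rpow_nonneg (FF_nonneg hK _ h0 _ _ _) _)
        (by positivity))
  have habs := abs_pos.2 ha
  have ha2 : 0 < a S ^ 2 := by positivity
  set k := S.card with hk
  set L := Real.log |a S| with hL
  have hk1 : ((k - 1 : ℕ) : ℝ) = k - 1 := by rw [Nat.cast_sub (by omega), Nat.cast_one]
  have hκ : 0 < kap (k - 1) := kap_pos (by omega)
  have out : ∀ c ∈ A \ S, 0 < TT K l' h a c S ∧ 0 < FF K l' h a c (S.erase c) ∧
      ((S.erase c).card * p) * Real.log (TT K l' h a c S) +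
        p * Real.log (FF K l' h a c (S.erase c)) = p * (k * (l' k + 2 * L)) := by
    intro c hc
    have hc' := (mem_sdiff.1 hc).2
    have hr : 0 < rr a c S :=
      add_pos_of_pos_of_nonneg ha2 (mul_nonneg (kap_pos (by omega)).le (sq_nonneg _))
    have hv := vv_pos l' k
    unfold TT FF
    rw [erase_eq_of_notMem hc', if_pos hKS, if_pos hKS, if_neg hc']
    refine ⟨by positivity, by positivity, ?_⟩
    rw [log_row l' _ p one_pos ha hr, Real.log_one, add_zero]
  have ins : ∀ c ∈ S, 0 < TT K l' h a c S ∧ 0 < FF K l' h a c (S.erase c) ∧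
      ((S.erase c).card * p) * Real.log (TT K l' h a c S) +
        p * Real.log (FF K l' h a c (S.erase c)) =
        p * ((k - 1) * (l' (k - 1) + Real.log (kap (k - 1)) + 2 * L)) +
          p * if k = K + 1 then ∑ j ∈ S.erase c, Real.log (h j) - (k - 1) * Real.log (h c) else 0 := by
    intro c hc
    have hce : (S.erase c).card = k - 1 := card_erase_of_mem hc
    unfold TT FF
    by_cases h1 : k = K + 1
    · have h2 : ¬ K < (S.erase c).card := by omega
      have h3 := hpos ha h1
      have h4 := h3 c hc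
      have h5 : k - 1 = K := by omega
      rw [if_neg h2, if_neg h2, if_pos ⟨by omega, hc⟩, if_pos h1, hce, ← hk1, h5]
      rw [h5] at hκ
      refine ⟨by positivity, prod_pos fun j hj => h3 j (mem_of_mem_erase hj), ?_⟩
      rw [Real.log_div (by positivity) h4.ne', Real.log_mul (by positivity) ha2.ne',
        Real.log_mul (by positivity) hκ.ne', Real.log_exp, Real.log_pow, ← Real.log_abs (a S),
        Real.log_prod fun j hj => (h3 j (mem_of_mem_erase hj)).ne']
      push_cast
      ring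
    · have h2 : K < (S.erase c).card := by omega
      have hr : 0 < rr a c (S.erase c) := by
        unfold rr
        rw [insert_erase hc, hce]
        positivity
      have hv := vv_pos l' (k - 1)
      rw [if_pos h2, if_pos h2, if_pos hc, if_neg h1, hce]
      refine ⟨by positivity, by positivity, ?_⟩
      rw [log_row l' _ p hκ ha hr, hk1, mul_zero, add_zero]
  have both : ∀ c ∈ A, 0 < TT K l' h a c S ∧ 0 < FF K l' h a c (S.erase c) := by
    intro c hc
    by_cases h1 : c ∈ S
    · exact ⟨(ins c h1).1, (ins c h1).2.1⟩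
    · exact ⟨(out c (mem_sdiff.2 ⟨hc, h1⟩)).1, (out c (mem_sdiff.2 ⟨hc, h1⟩)).2.1⟩
  have hcard : ((A \ S).card : ℝ) = A.card - k := by
    rw [card_sdiff_of_subset hS, Nat.cast_sub (card_le_card hS)]
  have hτ : 0 < vv l k * |a S| ^ qq k := mul_pos (vv_pos _ _) (Real.rpow_pos_of_pos habs _)
  refine pt_abs A (fun c => (S.erase c).card * p) (fun c => TT K l' h a c S)
    (fun c => FF K l' h a c (S.erase c)) hτ hM (fun c hc => (both c hc).1)
    (fun c hc => (both c hc).2) (fun c _ => by positivity) ?_ ?_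
  · rw [← sum_sdiff hS, sum_congr rfl fun c hc => by rw [erase_eq_of_notMem (mem_sdiff.1 hc).2],
      sum_congr (s₁ := S) rfl fun c hc => by rw [card_erase_of_mem hc], sum_const, sum_const,
      nsmul_eq_mul, nsmul_eq_mul, hcard, ← hk, hk1]
    linear_combination (k : ℝ) * hA
  · rw [← sum_sdiff hS, sum_congr rfl fun c hc => (out c hc).2.2,
      sum_congr (s₁ := S) rfl fun c hc => (ins c hc).2.2, sum_add_distrib, sum_const, sum_const,
      nsmul_eq_mul, nsmul_eq_mul, hcard, ← hk, ← mul_sum]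
    have e0 : (∑ c ∈ S, if k = K + 1 then
        ∑ j ∈ S.erase c, Real.log (h j) - (k - 1) * Real.log (h c) else 0) = 0 := by
      split_ifs
      · rw [sum_sub_distrib, sum_erase_sum, ← mul_sum, sub_self]
      · simp
    have e1 : ((k : ℝ) + 1) * Real.log (vv l k * |a S| ^ qq k) = k * l k + 2 * k * L := by
      rw [Real.log_mul (vv_pos _ _).ne' (by positivity), Real.log_rpow habs]
      unfold vv qq
      rw [Real.log_exp]
      field_simp
      ring
    rw [e0, e1]
    have h1 := mul_le_mul_of_nonneg_left hW hp.le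
    have e2 : p * (((A.card : ℝ) - 1) * (k * l k)) = k * l k := by
      linear_combination (k * l k) * hA
    have e3 : 2 * k * L = p * (((A.card : ℝ) - 1) * (2 * k * L)) := by
      linear_combination (-2 * k * L) * hA
    rw [e2] at h1
    rw [e3]
    linarith

/-- Projected masses above level `K`. -/
noncomputable def FG (K : ℕ) (l : ℕ → ℝ) (a : Finset ι → ℝ) (c : ι) (s : Finset ι) : ℝ :=
  if K < s.card then vv l s.card * rr a c s ^ ((s.card : ℝ) / ((s.card : ℝ) + 1)) else 0

lemma rr_le (a : Finset ι → ℝ) (c : ι) {s : Finset ι} (hs : 1 ≤ s.card) :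
    rr a c s ^ ((s.card : ℝ) / ((s.card : ℝ) + 1)) ≤
      (|a s + 1 * a (insert c s)| ^ qq s.card + |a s + (-1) * a (insert c s)| ^ qq s.card) / 2 := by
  have := two_pt (one_le_qq hs) (qq_le_two _) (a s) (a (insert c s))
  rw [qq_sub, qq_half] at this
  rw [one_mul, neg_one_mul, ← sub_eq_add_neg]
  exact this

lemma sum_TT {K : ℕ} (hK : 2 ≤ K) {A : Finset ι} (l : ℕ → ℝ) (h : ι → ℝ) (a : Finset ι → ℝ)
    {c : ι} (hc : c ∈ A) :
    ∑ S ∈ A.powerset, ((S.erase c).card : ℝ) * TT K l h a c S ≤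
      ∑ s ∈ (A.erase c).powerset, (s.card : ℝ) * FG K l a c s +
        K * (Real.exp (l K) * kap K) * (Rw (ind K) A a c / h c) := by
  conv_lhs => rw [← insert_erase hc]
  unfold Rw
  rw [sum_powerset_insert (notMem_erase c A), sum_div, mul_sum, ← sum_add_distrib,
    ← sum_add_distrib]
  refine sum_le_sum fun s hs => ?_
  have hcs : c ∉ s := fun h => notMem_erase c A (mem_powerset.1 hs h)
  unfold TT FG ind
  rw [erase_insert hcs, erase_eq_of_notMem hcs]
  by_cases h1 : K < s.card
  · rw [if_pos h1, if_pos h1, if_pos h1, if_neg hcs, if_pos (mem_insert_self c s),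
      if_neg (by omega)]
    have h2 := mul_le_mul_of_nonneg_left (mul_rpow_neg (rr_nonneg a c (s := s) (by omega)) s.card)
      (show 0 ≤ (s.card : ℝ) * vv l s.card from mul_nonneg (by positivity) (vv_pos _ _).le)
    refine le_trans (le_of_eq ?_) (h2.trans (le_of_eq (by ring)))
    set X := rr a c s ^ (-1 / ((s.card : ℝ) + 1))
    unfold rr
    ring
  · rw [if_neg h1, if_neg h1, if_neg h1, if_neg (fun h => hcs h.2)]
    by_cases h2 : s.card = K
    · rw [if_pos ⟨h2, mem_insert_self c s⟩, if_pos h2, h2]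
      apply le_of_eq
      ring
    · rw [if_neg (fun h => h2 h.1), if_neg h2]
      simp

/-- One step of the flow. -/
theorem step {K : ℕ} (hK : 2 ≤ K) {A : Finset ι} (hA2 : 2 ≤ A.card) {l l' : ℕ → ℝ} {M : ℝ}
    (hM : 1 ≤ M) (hl : ∀ i, K < i → l' i ≤ 0)
    (hW : ∀ k : ℕ, K < k → k ≤ A.card → ((A.card : ℝ) - 1) * (k * l k) ≤
      (A.card - k) * (k * l' k) + k * ((k - 1) * (l' (k - 1) + Real.log (kap (k - 1)))) - Real.log M)
    (a : Finset ι → ℝ)
    (hrow : ∀ c ∈ A, ∀ σ : ℝ, σ = 1 ∨ σ = -1 → (∑ s ∈ (A.erase c).powerset,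
      if K < s.card then |a s + σ * a (insert c s)| ^ qq s.card else 0) ≤ M - 3) :
    ((A.card : ℝ) - 1) * Phi K l A a ≤
      ∑ c ∈ A, (Phi K l' (A.erase c) (fun s => a s + 1 * a (insert c s)) +
        Phi K l' (A.erase c) (fun s => a s + (-1) * a (insert c s))) / 2 +
      (K * (Real.exp (l' K) * kap K) * Nw (ind K) A a ^ 2 + 3 * Real.log M) := by
  have hm : (2 : ℝ) ≤ A.card := by exact_mod_cast hA2
  set p : ℝ := 1 / ((A.card : ℝ) - 1) with hpdef
  have hp : 0 < p := by rw [hpdef]; exact one_div_pos.2 (by linarith)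
  have hA : ((A.card : ℝ) - 1) * p = 1 := by
    rw [hpdef]; exact mul_one_div_cancel (by linarith)
  have hM0 : 0 < M := by linarith
  set h := hh (ind K) A a with hhdef
  have h0 : ∀ j, 0 ≤ h j := hh_nonneg _ _ _
  set Ts : Finset ι → ℝ := fun S => (∏ c ∈ A, FF K l' h a c (S.erase c) ^ p) * M ^ (-p) with hTs
  set E := ∑ S ∈ A.powerset, if K < S.card then 0 else ∏ j ∈ S, h j with hE
  have hEn : ∀ S : Finset ι, 0 ≤ if K < S.card then 0 else ∏ j ∈ S, h j := fun S => by
    split_ifs
    exacts [le_rfl, prod_nonneg fun j _ => h0 j]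
  have hE0 : 0 ≤ E := sum_nonneg fun S _ => hEn S
  have hE3 : E ≤ 3 := by
    refine le_trans (sum_le_sum fun S _ => ?_) (sum_prod_le_three A h h0 (sum_hh _ _ _))
    split_ifs
    exacts [prod_nonneg fun j _ => h0 j, le_rfl]
  have hpt : ∀ S ∈ A.powerset, (if K < S.card then
      ((S.card : ℝ) + 1) * (vv l S.card * |a S| ^ qq S.card) else 0) ≤
      ∑ c ∈ A, ((S.erase c).card * p) * TT K l' h a c S + Ts S -
        (if K < S.card then 0 else ∏ j ∈ S, h j) * M ^ (-p) := by
    intro S hS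
    have hS' := mem_powerset.1 hS
    split_ifs with h1
    · rw [zero_mul, sub_zero]
      refine pt_step hK hS' h1 hp hA hM0 (hW _ h1 (card_le_card hS')) h0 a fun ha hk j hj => ?_
      refine hh_pos (hS' hj) (lt_of_lt_of_le ?_ (le_Rw (ind_nonneg K) a hS' hj))
      rw [card_erase_of_mem hj, hk]
      simp only [ind, Nat.add_sub_cancel, if_true, one_mul]
      positivity
    · have e : Ts S = (∏ j ∈ S, h j) * M ^ (-p) := by
        simp only [hTs]
        rw [← prod_erase_rpow hS' h h0 hA]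
        congr 1
        refine prod_congr rfl fun c _ => ?_
        unfold FF
        rw [if_neg (fun h2 => h1 (h2.trans_le card_erase_le))]
      rw [e, add_sub_cancel_right]
      exact sum_nonneg fun c _ => mul_nonneg (by positivity) (TT_nonneg hK _ h0 _ _ _)
  set G : ι → ℝ := fun c => ∑ s ∈ (A.erase c).powerset, FG K l' a c s with hG
  have hG0 : ∀ c, 0 ≤ G c := fun c => sum_nonneg fun s _ => by
    unfold FG
    split_ifs with h1
    exacts [mul_nonneg (vv_pos _ _).le (Real.rpow_nonneg (rr_nonneg a c (by omega)) _), le_rfl]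
  have hFG : ∀ c ∈ A, ∑ s ∈ (A.erase c).powerset, FF K l' h a c s ≤ G c + E := by
    intro c _
    refine le_trans ?_ (add_le_add le_rfl (sum_le_sum_of_subset_of_nonneg
      (powerset_mono.2 (erase_subset c A)) fun S _ _ => hEn S))
    rw [← sum_add_distrib]
    refine sum_le_sum fun s _ => ?_
    unfold FF FG
    split_ifs <;> simp
  have hGM : ∀ c ∈ A, G c ≤ M - 3 := by
    intro c hc
    have a1 := hrow c hc 1 (Or.inl rfl)
    have a2 := hrow c hc (-1) (Or.inr rfl)
    refine le_trans ?_ (show _ / 2 ≤ M - 3 by linarith [add_le_add a1 a2] :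
      ((∑ s ∈ (A.erase c).powerset,
      if K < s.card then |a s + 1 * a (insert c s)| ^ qq s.card else 0) +
      ∑ s ∈ (A.erase c).powerset,
      if K < s.card then |a s + (-1) * a (insert c s)| ^ qq s.card else 0) / 2 ≤ M - 3)
    rw [← sum_add_distrib, sum_div]
    refine sum_le_sum fun s _ => ?_
    unfold FG
    split_ifs with h1
    · refine le_trans (mul_le_of_le_one_left (Real.rpow_nonneg (rr_nonneg a c (by omega)) _) ?_)
        (rr_le a c (by omega))
      exact Real.exp_le_one_iff.2 (mul_nonpos_of_nonneg_of_nonpos (by positivity) (hl _ h1))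
    · simp
  have hTsum : ∑ S ∈ A.powerset, Ts S ≤ p * ∑ c ∈ A, G c + E := by
    simp only [hTs]
    rw [← sum_mul]
    have a1 := lw A hp.le hA A subset_rfl (FF K l' h a) (FF_nonneg hK _ h0 a)
    have a2 := prod_le_avg A (fun c => ∑ s ∈ (A.erase c).powerset, FF K l' h a c s) hp hA hM0
      (fun c _ => sum_nonneg fun s _ => FF_nonneg hK _ h0 a _ _)
      fun c hc => (hFG c hc).trans (by linarith [hGM c hc])
    refine (mul_le_mul_of_nonneg_right a1 (by positivity)).trans (a2.trans ?_)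
    have a3 := sum_le_sum hFG
    rw [sum_add_distrib, sum_const, nsmul_eq_mul] at a3
    have a4 : 0 ≤ ∑ c ∈ A, G c := sum_nonneg fun c _ => hG0 c
    rw [div_le_iff₀ (by linarith)]
    have a5 : p * (∑ c ∈ A, G c) * A.card = ∑ c ∈ A, G c + p * ∑ c ∈ A, G c := by
      linear_combination (∑ c ∈ A, G c) * hA
    nlinarith [mul_nonneg hp.le a4]
  have hTT : ∑ S ∈ A.powerset, ∑ c ∈ A, ((S.erase c).card * p) * TT K l' h a c S ≤
      p * (∑ c ∈ A, ∑ s ∈ (A.erase c).powerset, (s.card : ℝ) * FG K l' a c s +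
        K * (Real.exp (l' K) * kap K) * Nw (ind K) A a ^ 2) := by
    have a1 := mul_le_mul_of_nonneg_left (sum_Rw_div (ind_nonneg K) A a)
      (show 0 ≤ K * (Real.exp (l' K) * kap K) by have := kap_pos hK; positivity)
    refine le_trans ?_ (mul_le_mul_of_nonneg_left (add_le_add le_rfl a1) hp.le)
    rw [sum_comm, mul_sum, ← sum_add_distrib, mul_sum]
    refine sum_le_sum fun c hc => ?_
    refine le_trans (le_of_eq ?_) (mul_le_mul_of_nonneg_left (sum_TT hK l' h a hc) hp.le)
    rw [mul_sum]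
    exact sum_congr rfl fun S _ => by ring
  have hfin : ∀ c ∈ A, ∑ s ∈ (A.erase c).powerset, (s.card : ℝ) * FG K l' a c s + G c ≤
      (Phi K l' (A.erase c) (fun s => a s + 1 * a (insert c s)) +
        Phi K l' (A.erase c) (fun s => a s + (-1) * a (insert c s))) / 2 := by
    intro c _
    unfold Phi
    rw [← sum_add_distrib, ← sum_add_distrib, sum_div]
    refine sum_le_sum fun s _ => ?_
    unfold FG
    split_ifs with h1
    · have := mul_le_mul_of_nonneg_left (rr_le a c (s := s) (by omega))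
        (show 0 ≤ ((s.card : ℝ) + 1) * vv l' s.card from
          mul_nonneg (by positivity) (vv_pos _ _).le)
      linarith
    · simp
  have h1 := sum_le_sum hpt
  rw [sum_sub_distrib, ← sum_mul, ← hE, sum_add_distrib] at h1
  have h2 := sum_le_sum hfin
  rw [sum_add_distrib] at h2
  have h3 : 1 - p * Real.log M ≤ M ^ (-p) := by
    rw [Real.rpow_def_of_pos hM0]
    linarith [Real.add_one_le_exp (Real.log M * -p)]
  have h4 : 0 ≤ p * Real.log M := mul_nonneg hp.le (Real.log_nonneg hM)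
  have h5 : E - E * M ^ (-p) ≤ p * (3 * Real.log M) := by nlinarith
  have h6 := mul_le_mul_of_nonneg_left h2 hp.le
  refine le_of_mul_le_mul_left ?_ hp
  rw [← mul_assoc, mul_comm p, hA, one_mul]
  have h7 : Phi K l A a ≤ _ := h1
  rw [mul_add] at h6 hTT
  rw [mul_add, mul_add]
  linarith

end Pool.Agent.Lib.MP_de5887_an.Ex
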