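import Pool.Agent.Lib.MP_de5887_an.Final

set_option autoImplicit false

open Finset
open scoped BigOperators

namespace Pool.Agent.Lib.MP_de5887_an.Ex

lemma nonneg_of_deriv (f f' : ℝ → ℝ) (hc : ContinuousOn f (Set.Icc 0 1))
    (hd : ∀ t ∈ Set.Ioo (0 : ℝ) 1, HasDerivAt f (f' t) t) (hp : ∀ t ∈ Set.Ioo (0 : ℝ) 1, 0 ≤ f' t)
    (h0 : f 0 = 0) {t : ℝ} (ht : t ∈ Set.Icc (0 : ℝ) 1) : 0 ≤ f t := by
  have hm : MonotoneOn f (Set.Icc 0 1) := by
    refine monotoneOn_of_deriv_nonneg (convex_Icc 0 1) hc ?_ ?_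
    · rw [interior_Icc]
      exact fun x hx => (hd x hx).differentiableAt.differentiableWithinAt
    · rw [interior_Icc]
      intro x hx
      rw [(hd x hx).deriv]
      exact hp x hx
  have := hm (Set.left_mem_Icc.2 zero_le_one) ht ht.1
  rwa [h0] at this

lemma bern_neg {s e : ℝ} (hs : -1 < s) (he0 : 0 ≤ e) (he1 : e ≤ 1) : 1 - e * s ≤ (1 + s) ^ (-e) := by
  have h1 := rpow_one_add_le_one_add_mul_self hs.le he0 he1
  have h2 : 0 < (1 + s) ^ e := Real.rpow_pos_of_pos (by linarith) _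
  rw [Real.rpow_neg (by linarith), ← one_div, le_div_iff₀ h2]
  rcases le_or_gt (1 - e * s) 0 with h | h
  · nlinarith
  · nlinarith [mul_le_mul_of_nonneg_left h1 h.le, sq_nonneg (e * s)]

lemma odd_part {p : ℝ} (hp0 : 0 ≤ p) (hp1 : p ≤ 1) {t : ℝ} (ht : t ∈ Set.Icc (0 : ℝ) 1) :
    0 ≤ (1 + t) ^ p - (1 - t) ^ p - 2 * p * t := by
  refine nonneg_of_deriv (fun t => (1 + t) ^ p - (1 - t) ^ p - 2 * p * t)
    (fun t => p * ((1 + t) ^ (p - 1) + (1 - t) ^ (p - 1) - 2)) ?_ ?_ ?_ (by simp) ht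
  · refine Continuous.continuousOn ?_
    have h := Real.continuous_rpow_const hp0
    exact ((h.comp (by fun_prop)).sub (h.comp (by fun_prop))).sub (by fun_prop)
  · intro x hx
    have h1 : HasDerivAt (fun t : ℝ => (1 + t) ^ p) (1 * p * (1 + x) ^ (p - 1)) x :=
      ((hasDerivAt_id x).const_add 1).rpow_const (Or.inl (by simp only [id]; linarith [hx.1]))
    have h2 : HasDerivAt (fun t : ℝ => (1 - t) ^ p) (-1 * p * (1 - x) ^ (p - 1)) x :=
      ((hasDerivAt_id x).const_sub 1).rpow_const (Or.inl (by simp only [id]; linarith [hx.2]))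
    have h3 : HasDerivAt (fun t : ℝ => 2 * p * t) (2 * p * 1) x := (hasDerivAt_id x).const_mul _
    exact ((h1.sub h2).sub h3).congr_deriv (by ring)
  · intro x hx
    refine mul_nonneg hp0 ?_
    have h1 := bern_neg (s := x) (e := 1 - p) (by linarith [hx.1]) (by linarith) (by linarith)
    have h2 := bern_neg (s := -x) (e := 1 - p) (by linarith [hx.2]) (by linarith) (by linarith)
    rw [show -(1 - p) = p - 1 by ring] at h1 h2
    rw [← sub_eq_add_neg] at h2
    linarith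

lemma even_part {q : ℝ} (hq1 : 1 ≤ q) (hq2 : q ≤ 2) {t : ℝ} (ht : t ∈ Set.Icc (0 : ℝ) 1) :
    0 ≤ (1 + t) ^ q + (1 - t) ^ q - 2 - q * (q - 1) * t ^ 2 := by
  refine nonneg_of_deriv (fun t => (1 + t) ^ q + (1 - t) ^ q - 2 - q * (q - 1) * t ^ 2)
    (fun t => q * ((1 + t) ^ (q - 1) - (1 - t) ^ (q - 1) - 2 * (q - 1) * t)) ?_ ?_ ?_
    (by norm_num) ht
  · refine Continuous.continuousOn ?_
    have h := Real.continuous_rpow_const (show 0 ≤ q by linarith)
    exact (((h.comp (by fun_prop)).add (h.comp (by fun_prop))).sub (by fun_prop)).sub (by fun_prop)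
  · intro x hx
    have h1 : HasDerivAt (fun t : ℝ => (1 + t) ^ q) (1 * q * (1 + x) ^ (q - 1)) x :=
      ((hasDerivAt_id x).const_add 1).rpow_const (Or.inr hq1)
    have h2 : HasDerivAt (fun t : ℝ => (1 - t) ^ q) (-1 * q * (1 - x) ^ (q - 1)) x :=
      ((hasDerivAt_id x).const_sub 1).rpow_const (Or.inr hq1)
    have h3 : HasDerivAt (fun t : ℝ => q * (q - 1) * t ^ 2) (q * (q - 1) * (2 * x)) x := by
      simpa using (hasDerivAt_pow 2 x).const_mul (q * (q - 1))
    exact (((h1.add h2).sub_const 2).sub h3).congr_deriv (by ring)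
  · intro x hx
    exact mul_nonneg (by linarith) (odd_part (by linarith) (by linarith) ⟨hx.1.le, hx.2.le⟩)

lemma two_pt_core {q u v : ℝ} (hq1 : 1 ≤ q) (hq2 : q ≤ 2) (hv : 0 ≤ v) (huv : v ≤ u) :
    (u ^ 2 + (q - 1) * v ^ 2) ^ (q / 2) ≤ ((u + v) ^ q + (u - v) ^ q) / 2 := by
  rcases (hv.trans huv).eq_or_lt with h0 | hu
  · have hv0 : v = 0 := le_antisymm (h0 ▸ huv) hv
    rw [← h0, hv0]
    simp [Real.zero_rpow (show q / 2 ≠ 0 by positivity), Real.zero_rpow (show q ≠ 0 by positivity)]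
  set t := v / u with ht
  have ht0 : 0 ≤ t := div_nonneg hv hu.le
  have ht1 : t ≤ 1 := (div_le_one hu).2 huv
  have e1 : u ^ 2 + (q - 1) * v ^ 2 = u ^ 2 * (1 + (q - 1) * t ^ 2) := by rw [ht]; field_simp
  have e2 : u + v = u * (1 + t) := by rw [ht]; field_simp
  have e3 : u - v = u * (1 - t) := by rw [ht]; field_simp
  have hk : 0 ≤ (q - 1) * t ^ 2 := mul_nonneg (by linarith) (sq_nonneg t)
  have e4 : (u ^ 2) ^ (q / 2) = u ^ q := by
    rw [← Real.rpow_natCast, ← Real.rpow_mul hu.le]; congr 1; push_cast; ring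
  rw [e1, e2, e3, Real.mul_rpow (by positivity) (by linarith), Real.mul_rpow hu.le (by linarith),
    Real.mul_rpow hu.le (by linarith), e4]
  have h1 := rpow_one_add_le_one_add_mul_self (s := (q - 1) * t ^ 2) (p := q / 2) (by linarith)
    (by linarith) (by linarith)
  have h2 := even_part hq1 hq2 ⟨ht0, ht1⟩
  have h3 : 0 < u ^ q := Real.rpow_pos_of_pos hu _
  have h4 : (1 + (q - 1) * t ^ 2) ^ (q / 2) ≤ ((1 + t) ^ q + (1 - t) ^ q) / 2 := by nlinarith
  nlinarith [mul_le_mul_of_nonneg_left h4 h3.le]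

/-- The sharp two point inequality. -/
lemma two_pt {q : ℝ} (hq1 : 1 ≤ q) (hq2 : q ≤ 2) (a b : ℝ) :
    (a ^ 2 + (q - 1) * b ^ 2) ^ (q / 2) ≤ (|a + b| ^ q + |a - b| ^ q) / 2 := by
  have key : |a + b| ^ q + |a - b| ^ q = (|a| + |b|) ^ q + (|(|a| - |b|)|) ^ q := by
    rcases le_total 0 a with ha | ha <;> rcases le_total 0 b with hb | hb
    · rw [abs_of_nonneg ha, abs_of_nonneg hb, abs_of_nonneg (add_nonneg ha hb)]
    · rw [abs_of_nonneg ha, abs_of_nonpos hb, abs_of_nonneg (sub_nonneg.2 (hb.trans ha)),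
        sub_neg_eq_add, add_comm, sub_eq_add_neg]
    · rw [abs_of_nonpos ha, abs_of_nonneg hb, abs_of_nonpos (sub_nonpos.2 (ha.trans hb)),
        add_comm, show -a - b = -(a + b) by ring, abs_neg, show -(a - b) = -a + b by ring]
    · rw [abs_of_nonpos ha, abs_of_nonpos hb, abs_of_nonpos (add_nonpos ha hb),
        show -a - -b = -(a - b) by ring, abs_neg, show -(a + b) = -a + -b by ring]
  rw [key, ← sq_abs a, ← sq_abs b]
  rcases le_total |b| |a| with h | h
  · rw [abs_of_nonneg (sub_nonneg.2 h)]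
    exact two_pt_core hq1 hq2 (abs_nonneg b) h
  · rw [abs_sub_comm, abs_of_nonneg (sub_nonneg.2 h), add_comm |a| |b|]
    refine le_trans (Real.rpow_le_rpow ?_ ?_ (by linarith)) (two_pt_core hq1 hq2 (abs_nonneg a) h)
    · exact add_nonneg (sq_nonneg _) (mul_nonneg (by linarith) (sq_nonneg _))
    · have := pow_le_pow_left₀ (abs_nonneg a) h 2
      nlinarith

/-- Weighted geometric means are superadditive. -/
lemma gm_add {α : Type*} (C : Finset α) (p x y : α → ℝ) (hp : ∀ c ∈ C, 0 ≤ p c)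
    (hs : ∑ c ∈ C, p c = 1) (hx : ∀ c ∈ C, 0 ≤ x c) (hy : ∀ c ∈ C, 0 ≤ y c) :
    ∏ c ∈ C, x c ^ p c + ∏ c ∈ C, y c ^ p c ≤ ∏ c ∈ C, (x c + y c) ^ p c := by
  have key : ∀ z : α → ℝ, (∀ c ∈ C, 0 ≤ z c) → (∀ c ∈ C, z c ≤ x c + y c) →
      ∏ c ∈ C, z c ^ p c ≤ (∏ c ∈ C, (x c + y c) ^ p c) * ∑ c ∈ C, p c * (z c / (x c + y c)) := by
    intro z hz hz'
    have h1 := Real.geom_mean_le_arith_mean_weighted C p (fun c => z c / (x c + y c)) hp hs
      fun c hc => div_nonneg (hz c hc) (add_nonneg (hx c hc) (hy c hc))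
    refine le_trans (le_of_eq ?_) (mul_le_mul_of_nonneg_left h1 (prod_nonneg fun c hc =>
      Real.rpow_nonneg (add_nonneg (hx c hc) (hy c hc)) _))
    rw [← prod_mul_distrib]
    refine prod_congr rfl fun c hc => ?_
    have h2 := add_nonneg (hx c hc) (hy c hc)
    rw [← Real.mul_rpow h2 (div_nonneg (hz c hc) h2)]
    congr 1
    rcases h2.eq_or_lt with h | h
    · rw [← h, zero_mul]
      exact le_antisymm (h ▸ hz' c hc) (hz c hc)
    · field_simp
  have h1 := key x hx fun c hc => by linarith [hy c hc]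
  have h2 := key y hy fun c hc => by linarith [hx c hc]
  have h3 : ∑ c ∈ C, p c * (x c / (x c + y c)) + ∑ c ∈ C, p c * (y c / (x c + y c)) ≤ 1 := by
    rw [← sum_add_distrib, ← hs]
    refine sum_le_sum fun c hc => ?_
    rw [← mul_add, ← add_div]
    exact mul_le_of_le_one_right (hp c hc) (div_self_le_one _)
  have h4 : 0 ≤ ∏ c ∈ C, (x c + y c) ^ p c :=
    prod_nonneg fun c hc => Real.rpow_nonneg (add_nonneg (hx c hc) (hy c hc)) _
  nlinarith

lemma hol2 {s w1 w2 x1 x2 : ℝ} (hs0 : 0 ≤ s) (hs1 : s ≤ 1) (h1 : 0 ≤ w1) (h2 : 0 ≤ w2)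
    (h3 : 0 ≤ x1) (h4 : 0 ≤ x2) :
    w1 ^ (1 - s) * x1 ^ s + w2 ^ (1 - s) * x2 ^ s ≤ (w1 + w2) ^ (1 - s) * (x1 + x2) ^ s := by
  have := gm_add (univ : Finset Bool) (fun b => if b then 1 - s else s)
    (fun b => if b then w1 else x1) (fun b => if b then w2 else x2)
    (fun b _ => by cases b <;> simp <;> linarith) (by simp)
    (fun b _ => by cases b <;> simpa) (fun b _ => by cases b <;> simpa)
  simpa using this

variable {ι : Type*} [Fintype ι] [DecidableEq ι]

/-- Averaging out one coordinate. -/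
lemma expect_pm (i : ι) (F : ℝ → (ι → Bool) → ℝ)
    (hF : ∀ s x b, F s (Function.update x i b) = F s x) :
    𝔼 x, F (sg (x i)) x = 𝔼 x, (F 1 x + F (-1) x) / 2 := by
  refine expect_eq_of_flip i _ _ (fun x => (F 1 x - F (-1) x) / 2)
    (fun x b => by simp only [hF]) fun x => ?_
  rcases sg_cases (x i) with h | h <;> rw [h] <;> ring

/-- Hypercontractivity from `L^q` to `L^2`. -/
theorem hyper {q : ℝ} (hq1 : 1 ≤ q) (hq2 : q ≤ 2) (V : Finset ι) (a : Finset ι → ℝ) :
    (∑ T ∈ V.powerset, (q - 1) ^ T.card * a T ^ 2) ^ (q / 2) ≤ 𝔼 x, |ev V a x| ^ q := by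
  induction V using Finset.induction_on generalizing a with
  | empty =>
    have e : (a ∅ ^ 2) ^ (q / 2) = |a ∅| ^ q := by
      rw [← sq_abs, ← Real.rpow_natCast, ← Real.rpow_mul (abs_nonneg _)]; congr 1; push_cast; ring
    simp [ev, mev, e]
  | insert i V hi ih =>
    set b : Finset ι → ℝ := fun T => a (insert i T) with hb
    set κ := q - 1 with hκ
    have hκ0 : 0 ≤ κ := by linarith
    set ρ := √κ with hρ
    have hρ2 : ρ ^ 2 = κ := Real.sq_sqrt hκ0
    set N1 := ∑ T ∈ V.powerset, κ ^ T.card * (a T + ρ * b T) ^ 2 with hN1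
    set N2 := ∑ T ∈ V.powerset, κ ^ T.card * (a T + (-ρ) * b T) ^ 2 with hN2
    have hN10 : 0 ≤ N1 := sum_nonneg fun T _ => by positivity
    have hN20 : 0 ≤ N2 := sum_nonneg fun T _ => by positivity
    have hs : ∑ T ∈ (insert i V).powerset, κ ^ T.card * a T ^ 2 = (N1 + N2) / 2 := by
      rw [sum_powerset_insert hi, hN1, hN2, ← sum_add_distrib, ← sum_add_distrib, sum_div]
      refine sum_congr rfl fun T hT => ?_
      rw [card_insert_of_notMem (fun h => hi (mem_powerset.1 hT h)), pow_succ κ, ← hρ2]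
      ring
    have h1 := ih fun T => a T + ρ * b T
    have h2 := ih fun T => a T + (-ρ) * b T
    have e1 : ∀ (c : ℝ) x, ev V (fun T => a T + c * b T) x = ev V a x + c * ev V b x :=
      fun c x => mev_add_mul V a b c _
    simp only [e1] at h1 h2
    have e2 : 𝔼 x, |ev (insert i V) a x| ^ q =
        𝔼 x, (|ev V a x + 1 * ev V b x| ^ q + |ev V a x + (-1) * ev V b x| ^ q) / 2 := by
      rw [← expect_pm i (fun s x => |ev V a x + s * ev V b x| ^ q)
        (fun s x c => by simp only [ev_update hi])]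
      exact expect_congr rfl fun x _ => by rw [ev_insert hi]
    rw [hs, e2]
    set E := 𝔼 x, (|ev V a x + 1 * ev V b x| ^ q + |ev V a x + (-1) * ev V b x| ^ q) / 2 with hE
    have hE0 : 0 ≤ E := expect_nonneg fun x _ => by positivity
    set S := (N1 + N2) / 2 with hS
    have hq0 : 0 < q / 2 := by linarith
    rcases (show 0 ≤ S by positivity).eq_or_lt with h0 | hSp
    · rw [← h0, Real.zero_rpow hq0.ne']; exact hE0
    have habs : ∀ z : ℝ, |z| ^ q = (z ^ 2) ^ (q / 2) := fun z => by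
      rw [← sq_abs, ← Real.rpow_natCast, ← Real.rpow_mul (abs_nonneg _)]; congr 1; push_cast; ring
    have h3 : ∀ x, N1 ^ (1 - q / 2) / 2 * |ev V a x + ρ * ev V b x| ^ q +
        N2 ^ (1 - q / 2) / 2 * |ev V a x + (-ρ) * ev V b x| ^ q ≤ S ^ (1 - q / 2) *
          ((|ev V a x + 1 * ev V b x| ^ q + |ev V a x + (-1) * ev V b x| ^ q) / 2) := by
      intro x
      set u := ev V a x
      set v := ev V b x
      have h4 := two_pt hq1 hq2 u v
      have h5 := hol2 (s := q / 2) (w1 := N1 / 2) (w2 := N2 / 2) (x1 := (u + ρ * v) ^ 2 / 2)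
        (x2 := (u + (-ρ) * v) ^ 2 / 2) hq0.le (by linarith) (by positivity) (by positivity)
        (by positivity) (by positivity)
      have e3 : (u + ρ * v) ^ 2 / 2 + (u + (-ρ) * v) ^ 2 / 2 = u ^ 2 + κ * v ^ 2 := by
        rw [← hρ2]; ring
      have e4 : ∀ N z : ℝ, 0 ≤ N → (N / 2) ^ (1 - q / 2) * (z ^ 2 / 2) ^ (q / 2) =
          N ^ (1 - q / 2) / 2 * |z| ^ q := by
        intro N z hN
        rw [habs, Real.div_rpow hN (by norm_num), Real.div_rpow (sq_nonneg z) (by norm_num)]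
        have : (2 : ℝ) ^ (1 - q / 2) * 2 ^ (q / 2) = 2 := by
          rw [← Real.rpow_add (by norm_num)]; simp
        rw [div_mul_div_comm, this]; ring
      rw [e3, e4 _ _ hN10, e4 _ _ hN20, ← add_div, ← hS] at h5
      refine h5.trans (mul_le_mul_of_nonneg_left ?_ (by positivity))
      rw [one_mul, neg_one_mul, ← sub_eq_add_neg]
      exact h4
    have h6 := expect_le_expect (s := univ) fun x _ => h3 x
    rw [expect_add_distrib, ← mul_expect, ← mul_expect, ← mul_expect, ← hE] at h6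
    have e5 : ∀ N : ℝ, 0 ≤ N → N ^ (1 - q / 2) / 2 * N ^ (q / 2) = N / 2 := by
      intro N hN
      rw [div_mul_eq_mul_div, ← Real.rpow_add' hN (by simp)]; simp
    have h7 : S ≤ S ^ (1 - q / 2) * E := by
      have a1 := mul_le_mul_of_nonneg_left h1 (show 0 ≤ N1 ^ (1 - q / 2) / 2 by positivity)
      have a2 := mul_le_mul_of_nonneg_left h2 (show 0 ≤ N2 ^ (1 - q / 2) / 2 by positivity)
      rw [e5 _ hN10] at a1
      rw [e5 _ hN20] at a2
      linarith
    have h8 : S = S ^ (1 - q / 2) * S ^ (q / 2) := by rw [← Real.rpow_add hSp]; simp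
    have h9 : 0 < S ^ (1 - q / 2) := Real.rpow_pos_of_pos hSp _
    exact le_of_mul_le_mul_left (h8 ▸ h7) h9

/-- The damped `L^2` norm against the `L^1` norm and a small multiple of the `L^2` norm. -/
theorem interp {r μ : ℝ} (hr0 : 0 ≤ r) (hr1 : r ≤ 1) (hμ : 1 ≤ μ) (V : Finset ι)
    (a : Finset ι → ℝ) :
    √(∑ T ∈ V.powerset, r ^ T.card * a T ^ 2) ≤
      μ ^ (2 * r) * (𝔼 x, |ev V a x| + √(∑ T ∈ V.powerset, a T ^ 2) / μ) := by
  set U := 𝔼 x, |ev V a x| with hU
  set W2 := ∑ T ∈ V.powerset, a T ^ 2 with hW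
  set N := ∑ T ∈ V.powerset, r ^ T.card * a T ^ 2 with hN
  have hU0 : 0 ≤ U := expect_nonneg fun x _ => abs_nonneg _
  have hW0 : 0 ≤ W2 := sum_nonneg fun T _ => sq_nonneg _
  have hN0 : 0 ≤ N := sum_nonneg fun T _ => by positivity
  have hμ0 : 0 < μ := by linarith
  have hNW : N ≤ W2 := sum_le_sum fun T _ =>
    mul_le_of_le_one_left (sq_nonneg _) (pow_le_one₀ hr0 hr1)
  rcases hW0.eq_or_lt with h0 | hWp
  · rw [le_antisymm (hNW.trans h0.symm.le) hN0, Real.sqrt_zero]; positivity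
  set X := U + √W2 / μ with hX
  have hsq : 0 < √W2 := Real.sqrt_pos.2 hWp
  have hXp : 0 < X := by positivity
  have h1 := hyper (q := 1 + r) (by linarith) (by linarith) V a
  rw [add_sub_cancel_left, ← hN] at h1
  have h2 : ∀ z : ℝ, |z| ^ (1 + r) ≤ (μ ^ (2 * r) * X ^ (1 + r)) *
      ((1 - r) / X * |z| + r / (μ * X) ^ 2 * z ^ 2) := by
    intro z
    have h3 := Real.geom_mean_le_arith_mean2_weighted (w₁ := 1 - r) (w₂ := r) (p₁ := |z| / X)
      (p₂ := z ^ 2 / (μ * X) ^ 2) (by linarith) hr0 (by positivity) (by positivity) (by ring)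
    refine le_trans (le_of_eq ?_) ((mul_le_mul_of_nonneg_left h3
      (show 0 ≤ μ ^ (2 * r) * X ^ (1 + r) by positivity)).trans (le_of_eq (by ring)))
    rcases (abs_nonneg z).eq_or_lt with hz | hz
    · have hz0 : z = 0 := abs_eq_zero.1 hz.symm
      rcases hr0.eq_or_lt with h | h
      · rw [← h, hz0]; simp
      · rw [hz0]; simp [Real.zero_rpow h.ne', Real.zero_rpow (show 1 + r ≠ 0 by linarith)]
    have hz2 : 0 < z ^ 2 := by rw [← sq_abs]; positivity
    rw [Real.rpow_def_of_pos hz, Real.rpow_def_of_pos hμ0, Real.rpow_def_of_pos hXp,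
      Real.rpow_def_of_pos (by positivity), Real.rpow_def_of_pos (by positivity), ← Real.exp_add,
      ← Real.exp_add, ← Real.exp_add, Real.log_div hz.ne' hXp.ne',
      Real.log_div hz2.ne' (by positivity), ← sq_abs z, Real.log_pow, Real.log_pow,
      Real.log_mul hμ0.ne' hXp.ne']
    congr 1
    push_cast
    ring
  have h4 := expect_le_expect (s := univ) fun x _ => h2 (ev V a x)
  rw [← mul_expect, expect_add_distrib, ← mul_expect, ← mul_expect, expect_ev_sq, ← hU, ← hW] at h4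
  have h5 : (1 - r) / X * U + r / (μ * X) ^ 2 * W2 ≤ 1 := by
    have a1 : U / X ≤ 1 := (div_le_one hXp).2 (by rw [hX]; have : 0 ≤ √W2 / μ := by positivity
                                                  linarith)
    have a2 : W2 / (μ * X) ^ 2 ≤ 1 := by
      rw [div_le_one (by positivity)]
      have : √W2 ≤ μ * X := by
        rw [hX, mul_add, mul_div_cancel₀ _ hμ0.ne']
        have : 0 ≤ μ * U := by positivity
        linarith
      calc W2 = √W2 ^ 2 := (Real.sq_sqrt hW0).symm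
        _ ≤ _ := pow_le_pow_left₀ hsq.le this 2
    have b1 := mul_le_mul_of_nonneg_left a1 (show 0 ≤ 1 - r by linarith)
    have b2 := mul_le_mul_of_nonneg_left a2 hr0
    calc _ = (1 - r) * (U / X) + r * (W2 / (μ * X) ^ 2) := by ring
      _ ≤ 1 := by linarith
  have h6 : N ^ ((1 + r) / 2) ≤ (μ ^ (2 * r) * X) ^ (1 + r) := by
    refine h1.trans (h4.trans ((mul_le_of_le_one_right (by positivity) h5).trans ?_))
    rw [Real.mul_rpow (by positivity) hXp.le]
    refine mul_le_mul_of_nonneg_right ?_ (by positivity)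
    rw [← Real.rpow_mul hμ0.le]
    exact Real.rpow_le_rpow_of_exponent_le hμ (by nlinarith)
  have h7 : N ^ ((1 + r) / 2) = √N ^ (1 + r) := by
    rw [Real.sqrt_eq_rpow, ← Real.rpow_mul hN0]; congr 1; ring
  rw [h7] at h6
  exact (Real.rpow_le_rpow_iff (Real.sqrt_nonneg _) (by positivity) (by linarith)).1 h6

end Pool.Agent.Lib.MP_de5887_an.Ex
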